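import Pool.Agent.R304.UP.Fnl

/-! A functional which detects the functions close to `f` on `K`. -/

open Complex Filter Topology Set MeasureTheory

namespace Pool.Agent.R304.UQ

open R304.UP

/-- the distance on `K` -/
noncomputable def dK (K : Set ℂ) (f g : ℂ → ℂ) : ℝ := sInf {d : ℝ | 0 ≤ d ∧ ∀ z ∈ K, ‖g z - f z‖ ≤ d}

/-- the functional -/
noncomputable def bump (K : Set ℂ) (f : ℂ → ℂ) (ε : ℝ) (g : ℂ → ℂ) : ℝ := max 0 (1 - 2 / ε * dK K f g)

lemma dK_nonneg (K : Set ℂ) (f g : ℂ → ℂ) : 0 ≤ dK K f g := Real.sInf_nonneg fun _ h => h.1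

lemma dK_le {K : Set ℂ} {f g h : ℂ → ℂ} {δ : ℝ} (hδ : 0 ≤ δ) (hgh : ∀ z ∈ K, ‖g z - h z‖ ≤ δ) :
    dK K f g ≤ dK K f h + δ := by
  rcases Set.eq_empty_or_nonempty {d : ℝ | 0 ≤ d ∧ ∀ z ∈ K, ‖h z - f z‖ ≤ d} with h1 | h1
  · have h2 : {d : ℝ | 0 ≤ d ∧ ∀ z ∈ K, ‖g z - f z‖ ≤ d} = ∅ := by
      rw [Set.eq_empty_iff_forall_notMem] at h1 ⊢
      rintro d ⟨hd0, hd⟩
      refine h1 (d + δ) ⟨by linarith, fun z hz => ?_⟩
      have e : h z - f z = (g z - f z) - (g z - h z) := by ring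
      rw [e]
      exact (norm_sub_le _ _).trans (add_le_add (hd z hz) (hgh z hz))
    unfold dK
    rw [h1, h2, Real.sInf_empty]
    linarith
  · have h2 : dK K f g - δ ≤ dK K f h := by
      unfold dK
      refine le_csInf h1 ?_
      rintro d ⟨hd0, hd⟩
      rw [sub_le_iff_le_add]
      refine csInf_le ⟨0, fun _ h => h.1⟩ ⟨by linarith, fun z hz => ?_⟩
      have e : g z - f z = (h z - f z) + (g z - h z) := by ring
      rw [e]
      exact (norm_add_le _ _).trans (add_le_add (hd z hz) (hgh z hz))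
    linarith

lemma bump_nonneg (K : Set ℂ) (f : ℂ → ℂ) (ε : ℝ) (g : ℂ → ℂ) : 0 ≤ bump K f ε g :=
  le_max_left _ _

lemma bump_le {ε : ℝ} (hε : 0 < ε) (K : Set ℂ) (f g : ℂ → ℂ) : bump K f ε g ≤ 1 := by
  unfold bump
  refine max_le zero_le_one ?_
  have := mul_nonneg (show 0 ≤ 2 / ε by positivity) (dK_nonneg K f g)
  linarith

theorem bump_fnl {K : Set ℂ} (f : ℂ → ℂ) {ε : ℝ} (hε : 0 < ε) : Fnl K (bump K f ε) 1 := by
  refine ⟨fun g => ?_, fun e he => ⟨e * ε / 2, by positivity, fun g h hgh => ?_⟩⟩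
  · rw [abs_of_nonneg (bump_nonneg _ _ _ _)]
    exact bump_le hε _ _ _
  · have h1 := dK_le (f := f) (show 0 ≤ e * ε / 2 by positivity) hgh
    have h2 := dK_le (f := f) (g := h) (h := g) (show 0 ≤ e * ε / 2 by positivity)
      (fun z hz => by rw [norm_sub_rev]; exact hgh z hz)
    unfold bump
    have h3 : |(1 - 2 / ε * dK K f g) - (1 - 2 / ε * dK K f h)| ≤ e := by
      have e1 : (1 - 2 / ε * dK K f g) - (1 - 2 / ε * dK K f h) =
          2 / ε * (dK K f h - dK K f g) := by ring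
      rw [e1, abs_mul, abs_of_pos (show 0 < 2 / ε by positivity)]
      have h4 : |dK K f h - dK K f g| ≤ e * ε / 2 := by
        rw [abs_le]; constructor <;> linarith
      calc 2 / ε * |dK K f h - dK K f g| ≤ 2 / ε * (e * ε / 2) := by gcongr
        _ = e := by field_simp
    have h4 := abs_max_sub_max_le_abs (1 - 2 / ε * dK K f g) (1 - 2 / ε * dK K f h) 0
    rw [max_comm _ (0 : ℝ), max_comm _ (0 : ℝ)] at h4
    exact h4.trans h3

/-- where the functional is positive -/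
lemma bump_pos {K : Set ℂ} {f g : ℂ → ℂ} {ε : ℝ} (hε : 0 < ε)
    (hne : ∃ d : ℝ, 0 ≤ d ∧ ∀ z ∈ K, ‖g z - f z‖ ≤ d) (h : 0 < bump K f ε g) :
    ∃ δ < ε, ∀ z ∈ K, ‖g z - f z‖ ≤ δ := by
  unfold bump at h
  rcases lt_max_iff.1 h with h1 | h1
  · exact absurd h1 (lt_irrefl _)
  · have h2 : dK K f g < ε := by
      have h3 : 2 / ε * dK K f g < 1 := by linarith
      rw [div_mul_eq_mul_div, div_lt_one hε] at h3
      linarith [dK_nonneg K f g]
    obtain ⟨d, ⟨-, hd⟩, hdε⟩ := exists_lt_of_csInf_lt hne h2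
    exact ⟨d, hdε, hd⟩

/-- where the functional is large -/
lemma bump_half {K : Set ℂ} {f g : ℂ → ℂ} {ε : ℝ} (hε : 0 < ε)
    (h : ∃ δ < ε / 4, ∀ z ∈ K, ‖g z - f z‖ ≤ δ) : 1 / 2 ≤ bump K f ε g := by
  obtain ⟨δ, hδ, h1⟩ := h
  have h2 : dK K f g ≤ ε / 4 := by
    refine csInf_le ⟨0, fun _ h => h.1⟩ ⟨by positivity, fun z hz => (h1 z hz).trans hδ.le⟩
  unfold bump
  refine le_max_of_le_right ?_
  have h3 : 2 / ε * dK K f g ≤ 2 / ε * (ε / 4) := by gcongr
  have h4 : 2 / ε * (ε / 4) = 1 / 2 := by field_simp; norm_num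
  linarith

/-- the shifts of zeta are bounded on `K` -/
lemma sh_bdd {K : Set ℂ} (hK : IsCompact K) (hKs : K ⊆ {z | 1 / 2 < z.re ∧ z.re < 1})
    {f : ℂ → ℂ} (hf : ContinuousOn f K) (t : ℝ) : ∃ d : ℝ, 0 ≤ d ∧ ∀ z ∈ K, ‖sh t z - f z‖ ≤ d := by
  have hc : ContinuousOn (fun z => sh t z - f z) K := by
    refine ContinuousOn.sub ?_ hf
    intro z hz
    have hne : z + t * I ≠ 1 := by
      intro hh
      have h1 := congrArg Complex.re hh
      simp at h1
      linarith [(hKs hz).2]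
    have h1 : ContinuousAt (fun z : ℂ => riemannZeta (z + t * I)) z :=
      ContinuousAt.comp (f := fun z : ℂ => z + t * I) (g := riemannZeta)
        (differentiableAt_riemannZeta hne).continuousAt (by fun_prop)
    exact h1.continuousWithinAt
  obtain ⟨C, hC⟩ := hK.exists_bound_of_continuousOn hc
  exact ⟨max C 0, le_max_right _ _, fun z hz => (hC z hz).trans (le_max_left _ _)⟩

/-- lower bound of the mean value -/
lemma mean_low {Φ : (ℂ → ℂ) → ℝ} (hc : Continuous fun t : ℝ => Φ (sh t)) (h0 : ∀ g, 0 ≤ Φ g)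
    {E : Set ℝ} (hE : MeasurableSet E) (h1 : ∀ t ∈ E, 1 / 2 ≤ Φ (sh t)) {κ T0 : ℝ}
    (hd : ∀ T : ℝ, T0 ≤ T → ENNReal.ofReal (κ * T) ≤ volume (E ∩ Icc 0 T)) {m : ℝ}
    (hm : Tendsto (fun X : ℝ => (∫ t in (0 : ℝ)..X, Φ (sh t)) / X) atTop (𝓝 m)) : κ / 2 ≤ m := by
  refine ge_of_tendsto hm ?_
  filter_upwards [eventually_ge_atTop T0, eventually_gt_atTop 0] with X hX hX0
  rw [le_div_iff₀ hX0, intervalIntegral.integral_of_le hX0.le, ← integral_Icc_eq_integral_Ioc]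
  have hi : IntegrableOn (fun t : ℝ => Φ (sh t)) (Icc 0 X) :=
    hc.continuousOn.integrableOn_compact isCompact_Icc
  have hfin : volume (E ∩ Icc 0 X) ≠ ⊤ := by
    refine ne_top_of_le_ne_top ?_ (measure_mono inter_subset_right)
    rw [Real.volume_Icc]; exact ENNReal.ofReal_ne_top
  calc κ / 2 * X = 1 / 2 * (κ * X) := by ring
    _ ≤ 1 / 2 * (volume (E ∩ Icc 0 X)).toReal := by
        apply mul_le_mul_of_nonneg_left _ (by norm_num)
        have h2 := hd X hX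
        rcases le_or_gt (κ * X) 0 with h3 | h3
        · exact h3.trans ENNReal.toReal_nonneg
        · exact (ENNReal.ofReal_le_iff_le_toReal hfin).1 h2
    _ = ∫ t in E ∩ Icc 0 X, (1 / 2 : ℝ) := by
        rw [setIntegral_const, smul_eq_mul, Measure.real, mul_comm]
    _ ≤ ∫ t in E ∩ Icc 0 X, Φ (sh t) :=
        setIntegral_mono_on (integrableOn_const hfin) (hi.mono_set inter_subset_right)
          (hE.inter measurableSet_Icc) fun t ht => h1 t ht.1
    _ ≤ ∫ t in Icc 0 X, Φ (sh t) :=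
        setIntegral_mono_set hi (Eventually.of_forall fun t => h0 _) inter_subset_right.eventuallyLE

end Pool.Agent.R304.UQ
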