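import Pool.Agent.R304.UP.Main
import Pool.Agent.R304.UN.BadZ

/-! Mean values along the ordinates of the zeros. -/

open Complex Filter Topology Set MeasureTheory

namespace Pool.Agent.R304.UQ

open ZU H370 H370.A2 H370.AS H295SI TH803TW TH803UC R304.UN R304.UP

open Classical in
/-- few zeros have their ordinate in a set with a small neighbourhood -/
theorem few_zeros : ∃ C T0 : ℝ, 0 < C ∧ 10 ≤ T0 ∧ ∀ T : ℝ, T0 ≤ T → ∀ η : ℝ, 0 < η → ∀ E : Set ℝ,
    volume ({t : ℝ | ∃ t' ∈ E, |t - t'| ≤ 1} ∩ Icc 0 (3 * T)) ≤ ENNReal.ofReal (η * (3 * T)) →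
    NU riemannZeta T (2 * T) (fun t => t ∈ E) ≤ C * η * (NN riemannZeta T (2 * T) : ℝ) := by
  obtain ⟨C, hC, hloc⟩ := zcount good_zeta
  obtain ⟨T1, hT1, hlow⟩ := NN_low good_zeta
  refine ⟨42 * C, max 10 T1, by positivity, le_max_left _ _, fun T hT η hη E hms3 => ?_⟩
  have hT10 : 10 ≤ T := (le_max_left _ _).trans hT
  have hTT1 : T1 ≤ T := (le_max_right _ _).trans hT
  have hlowT := hlow T hTT1
  set F := (Zf riemannZeta T (2 * T)).filter (fun s => s.im ∈ E) with hF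
  set Fl : ℂ → ℕ := fun s => ⌊s.im⌋₊ with hFl
  set J := F.image Fl with hJ
  have hFim : ∀ s ∈ F, T < s.im ∧ s.im ≤ 2 * T ∧ s.im ∈ E := by
    intro s hs
    rw [hF, Finset.mem_filter, mem_Zf good_zeta (by linarith)] at hs
    exact ⟨hs.1.2.2.1, hs.1.2.2.2.1, hs.2⟩
  -- the number of the unit intervals
  have hcard : (J.card : ℝ) ≤ η * (3 * T) := by
    have hsub : (⋃ n ∈ J, Ico (n : ℝ) ((n : ℝ) + 1)) ⊆
        {t : ℝ | ∃ t' ∈ E, |t - t'| ≤ 1} ∩ Icc 0 (3 * T) := by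
      intro t ht
      simp only [mem_iUnion] at ht
      obtain ⟨n, hn, ht1, ht2⟩ := ht
      rw [hJ, Finset.mem_image] at hn
      obtain ⟨s, hs, rfl⟩ := hn
      obtain ⟨b1, b2, b3⟩ := hFim s hs
      have hs0 : 0 ≤ s.im := by linarith
      have c1 := Nat.floor_le hs0
      have c2 := Nat.lt_floor_add_one s.im
      simp only [hFl] at ht1 ht2
      refine ⟨⟨s.im, b3, ?_⟩, ?_, ?_⟩
      · rw [abs_le]; constructor <;> linarith
      · have : (0 : ℝ) ≤ (⌊s.im⌋₊ : ℝ) := Nat.cast_nonneg _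
        linarith
      · linarith
    have hvol : volume (⋃ n ∈ J, Ico (n : ℝ) ((n : ℝ) + 1)) = ENNReal.ofReal (J.card : ℝ) := by
      rw [measure_biUnion_finset]
      · simp
      · intro m _ n _ hmn
        simp only [Function.onFun]
        rw [Set.disjoint_left]
        intro t ht1 ht2
        apply hmn
        have e1 : (m : ℝ) < n + 1 := lt_of_le_of_lt ht1.1 ht2.2
        have e2 : (n : ℝ) < m + 1 := lt_of_le_of_lt ht2.1 ht1.2
        have e3 : m < n + 1 := by exact_mod_cast e1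
        have e4 : n < m + 1 := by exact_mod_cast e2
        omega
      · intro n _
        exact measurableSet_Ico
    have h6 := (measure_mono hsub).trans hms3
    rw [hvol] at h6
    exact (ENNReal.ofReal_le_ofReal_iff (by positivity)).mp h6
  -- each contains few zeros
  have hlogT : 0 < Real.log T := Real.log_pos (by linarith)
  have hper : ∀ n ∈ J, ∑ s ∈ F.filter (fun s => Fl s = n), (mult riemannZeta s : ℝ) ≤
      C * (2 * Real.log T) := by
    intro n hn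
    rw [hJ, Finset.mem_image] at hn
    obtain ⟨s0, hs0, hn0⟩ := hn
    obtain ⟨b1, b2, b3⟩ := hFim s0 hs0
    have hs00 : 0 ≤ s0.im := by linarith
    have c1 := Nat.floor_le hs00
    have c2 := Nat.lt_floor_add_one s0.im
    have hn1 : (n : ℝ) ≤ 2 * T := by rw [← hn0]; linarith
    have hn2 : T - 1 ≤ (n : ℝ) := by rw [← hn0]; linarith
    have hA : (1 : ℝ) ≤ (n : ℝ) + 1 / 2 - 1 := by linarith
    have h6 := hloc ((n : ℝ) + 1 / 2) (by linarith)
    have h7 : ∑ s ∈ F.filter (fun s => Fl s = n), (mult riemannZeta s : ℝ) ≤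
        (NN riemannZeta ((n : ℝ) + 1 / 2 - 1) ((n : ℝ) + 1 / 2 + 1) : ℝ) := by
      rw [H370.NN_eq good_zeta hA]
      push_cast
      refine Finset.sum_le_sum_of_subset_of_nonneg ?_ fun s _ _ => Nat.cast_nonneg _
      intro s hs
      rw [Finset.mem_filter] at hs
      have hsF := hs.1
      rw [hF, Finset.mem_filter, mem_Zf good_zeta (by linarith)] at hsF
      obtain ⟨⟨d1, d2, d3, d4, d5⟩, -⟩ := hsF
      rw [mem_Zf good_zeta hA]
      have hs0 : 0 ≤ s.im := by linarith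
      have c3 := Nat.floor_le hs0
      have c4 := Nat.lt_floor_add_one s.im
      have e : (⌊s.im⌋₊ : ℝ) = n := by exact_mod_cast hs.2
      rw [e] at c3 c4
      exact ⟨d1, d2, by linarith, by linarith, d5⟩
    refine h7.trans (h6.trans ?_)
    have h8 : Real.log ((n : ℝ) + 1 / 2) ≤ 2 * Real.log T := by
      rw [← Real.log_rpow (by linarith), show T ^ (2 : ℝ) = T ^ 2 by norm_cast]
      apply Real.log_le_log (by linarith)
      nlinarith
    gcongr
  -- conclusion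
  have hsum : NU riemannZeta T (2 * T) (fun t => t ∈ E) =
      ∑ n ∈ J, ∑ s ∈ F.filter (fun s => Fl s = n), (mult riemannZeta s : ℝ) := by
    unfold NU
    exact (Finset.sum_fiberwise_of_maps_to (fun s hs => Finset.mem_image_of_mem Fl hs) _).symm
  rw [hsum]
  calc ∑ n ∈ J, ∑ s ∈ F.filter (fun s => Fl s = n), (mult riemannZeta s : ℝ)
      ≤ ∑ n ∈ J, C * (2 * Real.log T) := Finset.sum_le_sum hper
    _ = J.card * (C * (2 * Real.log T)) := by rw [Finset.sum_const, nsmul_eq_mul]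
    _ ≤ η * (3 * T) * (C * (2 * Real.log T)) := by gcongr
    _ = 6 * C * η * (T * Real.log T) := by ring
    _ ≤ 6 * C * η * (7 * (NN riemannZeta T (2 * T) : ℝ)) := by gcongr
    _ = _ := by ring

/-- the approximation, with the mean value -/
theorem approxm {K : Set ℂ} (hK : IsCompact K) (hKs : K ⊆ {z | 1 / 2 < z.re ∧ z.re < 1})
    {Φ : (ℂ → ℂ) → ℝ} {B0 : ℝ} (hΦ : Fnl K Φ B0) {m : ℝ}
    (hm : Tendsto (fun X : ℝ => (∫ t in (0 : ℝ)..X, Φ (sh t)) / X) atTop (𝓝 m))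
    {ε η : ℝ} (hε : 0 < ε) (hη : 0 < η) :
    ∃ (M : ℕ) (g : C(UnitAddTorus (Fin (pr M).card), ℝ)) (Bd : Set ℝ),
      (∀ t ∉ Bd, |Φ (sh t) - g (torusPt (al M) t)| ≤ ε) ∧ (∀ x, |g x| ≤ B0) ∧
      |m - ∫ x, g x ∂(haarT (pr M).card)| ≤ ε ∧
      ∃ X0 : ℝ, 0 < X0 ∧ ∀ X ≥ X0, volume ({t : ℝ | ∃ t' ∈ Bd, |t - t'| ≤ 1} ∩ Icc 0 X) ≤
        ENNReal.ofReal (η * X) := by
  have hB0 : 0 ≤ B0 := (abs_nonneg _).trans (hΦ.bdd (sh 0))
  set η1 := min η (ε / (2 * (2 * B0 + 1))) with hη1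
  have hη10 : 0 < η1 := by rw [hη1]; positivity
  have hη1a : η1 ≤ η := min_le_left _ _
  have hη1b : η1 ≤ ε / (2 * (2 * B0 + 1)) := min_le_right _ _
  obtain ⟨M, g, Bd, q1, q2, X0, hX0, q3⟩ := approx' hK hKs hΦ (ε := ε / 2) (by positivity) hη10
  have hmg : |m - ∫ x, g x ∂(haarT (pr M).card)| ≤ ε / 2 + 2 * B0 * η1 + η1 := by
    have hlim := (hm.sub_const (∫ x, g x ∂(haarT (pr M).card))).abs
    refine le_of_tendsto hlim ?_
    filter_upwards [eventually_ge_atTop X0] with X hX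
    have hXp : 0 < X := hX0.trans_le hX
    have e1 : (∫ t in (0 : ℝ)..X, Φ (sh t)) / X - ∫ x, g x ∂(haarT (pr M).card) =
        ((∫ t in (0 : ℝ)..X, Φ (sh t)) - (∫ x, g x ∂(haarT (pr M).card)) * X) / X := by
      field_simp
    rw [e1, abs_div, abs_of_pos hXp, div_le_iff₀ hXp]
    exact (q3 X hX).2
  refine ⟨M, g, Bd, fun t ht => (q1 t ht).trans (by linarith), q2, ?_, X0, hX0, fun X hX => ?_⟩
  · have b2 : (2 * B0 + 1) * η1 ≤ ε / 2 := by
      calc (2 * B0 + 1) * η1 ≤ (2 * B0 + 1) * (ε / (2 * (2 * B0 + 1))) :=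
            mul_le_mul_of_nonneg_left hη1b (by positivity)
        _ = _ := by field_simp
    linarith
  · refine (q3 X hX).1.trans (ENNReal.ofReal_le_ofReal ?_)
    have : 0 < X := hX0.trans_le hX
    gcongr

/-- **the mean value along the ordinates** -/
theorem ord_mean {K : Set ℂ} (hK : IsCompact K) (hKs : K ⊆ {z | 1 / 2 < z.re ∧ z.re < 1})
    {Φ : (ℂ → ℂ) → ℝ} {B0 : ℝ} (hΦ : Fnl K Φ B0) {m : ℝ}
    (hm : Tendsto (fun X : ℝ => (∫ t in (0 : ℝ)..X, Φ (sh t)) / X) atTop (𝓝 m))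
    {ε : ℝ} (hε : 0 < ε) :
    ∃ T0 : ℝ, 10 ≤ T0 ∧ ∀ T : ℝ, T0 ≤ T →
      |MW riemannZeta T (2 * T) (fun t => Φ (sh t)) - m * (NN riemannZeta T (2 * T) : ℝ)| ≤
        ε * (NN riemannZeta T (2 * T) : ℝ) := by
  classical
  have hB0 : 0 ≤ B0 := (abs_nonneg _).trans (hΦ.bdd (sh 0))
  obtain ⟨C, T1, hC, hT1, hfew⟩ := few_zeros
  obtain ⟨M, g, Bd, q1, q2, q3, X0, hX0, q4⟩ := approxm hK hKs hΦ hm (ε := ε / 4)
    (η := ε / (4 * C * (2 * B0 + 1))) (by positivity) (by positivity)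
  obtain ⟨T2, hT2, hd⟩ := firstDy good_zeta dens_zeta (APm_torus (al_indep M) g) (η := ε / 4)
    (by positivity)
  refine ⟨max (max T1 X0) T2, le_max_of_le_right hT2, fun T hT => ?_⟩
  have t1 : T1 ≤ T := ((le_max_left _ _).trans (le_max_left _ _)).trans hT
  have t2 : X0 ≤ T := ((le_max_right _ _).trans (le_max_left _ _)).trans hT
  have t3 : T2 ≤ T := (le_max_right _ _).trans hT
  have hT10 : 10 ≤ T := hT1.trans t1
  have hf := hfew T t1 (ε / (4 * C * (2 * B0 + 1))) (by positivity) Bd (q4 (3 * T) (by linarith))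
  have h1 := hd T t3
  set NN1 : ℝ := (NN riemannZeta T (2 * T) : ℝ) with hNN1
  have hNN0 : 0 ≤ NN1 := Nat.cast_nonneg _
  have h2 : |MW riemannZeta T (2 * T) (fun t => Φ (sh t)) -
      MW riemannZeta T (2 * T) (fun t => g (torusPt (al M) t))| ≤
      ε / 4 * NN1 + 2 * B0 * NU riemannZeta T (2 * T) (fun t => t ∈ Bd) := by
    have hN : NN1 = ∑ s ∈ Zf riemannZeta T (2 * T), (mult riemannZeta s : ℝ) := by
      rw [hNN1, NN_eq good_zeta (by linarith : (1 : ℝ) ≤ T)]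
      push_cast
      rfl
    unfold MW NU
    rw [← Finset.sum_sub_distrib, hN, Finset.sum_filter, Finset.mul_sum, Finset.mul_sum,
      ← Finset.sum_add_distrib]
    refine (Finset.abs_sum_le_sum_abs _ _).trans (Finset.sum_le_sum fun s _ => ?_)
    have hp : (0 : ℝ) ≤ mult riemannZeta s := Nat.cast_nonneg _
    rw [← mul_sub, abs_mul, abs_of_nonneg hp]
    by_cases h : s.im ∈ Bd
    · rw [if_pos h]
      have h2 := abs_sub (Φ (sh s.im)) (g (torusPt (al M) s.im))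
      have h3 := hΦ.bdd (sh s.im)
      have h4 := q2 (torusPt (al M) s.im)
      have h5 := mul_le_mul_of_nonneg_left (show |Φ (sh s.im) - g (torusPt (al M) s.im)| ≤ 2 * B0 by
        linarith) hp
      nlinarith [mul_nonneg hε.le hp]
    · rw [if_neg h, mul_zero, add_zero, mul_comm]
      exact mul_le_mul_of_nonneg_right (q1 _ h) hp
  have h3 : 2 * B0 * NU riemannZeta T (2 * T) (fun t => t ∈ Bd) ≤ ε / 4 * NN1 := by
    have h4 : 2 * B0 * NU riemannZeta T (2 * T) (fun t => t ∈ Bd) ≤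
        2 * B0 * (C * (ε / (4 * C * (2 * B0 + 1))) * NN1) :=
      mul_le_mul_of_nonneg_left hf (by positivity)
    have h5 : 2 * B0 * (C * (ε / (4 * C * (2 * B0 + 1))) * NN1) =
        2 * B0 / (2 * B0 + 1) * (ε / 4 * NN1) := by field_simp
    have h6 : 2 * B0 / (2 * B0 + 1) ≤ 1 := by
      rw [div_le_one (by positivity)]
      linarith
    have h7 : 2 * B0 / (2 * B0 + 1) * (ε / 4 * NN1) ≤ 1 * (ε / 4 * NN1) :=
      mul_le_mul_of_nonneg_right h6 (by positivity)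
    linarith
  have h4 : |(∫ x, g x ∂(haarT (pr M).card)) * NN1 - m * NN1| ≤ ε / 4 * NN1 := by
    rw [← sub_mul, abs_mul, abs_of_nonneg hNN0, abs_sub_comm]
    exact mul_le_mul_of_nonneg_right q3 hNN0
  have h5 := abs_sub_le (MW riemannZeta T (2 * T) (fun t => Φ (sh t)))
    (MW riemannZeta T (2 * T) (fun t => g (torusPt (al M) t))) (m * NN1)
  have h6 := abs_sub_le (MW riemannZeta T (2 * T) (fun t => g (torusPt (al M) t)))
    ((∫ x, g x ∂(haarT (pr M).card)) * NN1) (m * NN1)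
  linarith

end Pool.Agent.R304.UQ
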