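import Pool.Agent.R304.UQ.Tri

/-! The number of pairs, weighted by functionals of zeta, unconditionally. -/

open Complex Filter Topology Set MeasureTheory

namespace Pool.Agent.R304.UQ

open ZU H370 H370.A2 H370.AS H295SI TH803TW TH803UC R304.UN R304.UP
open Pool.Agent.TH850.UV (mS mS_nonneg)

/-- the weighted number of the pairs -/
noncomputable def PC (T b : ℝ) (φ : ℝ → ℝ) : ℝ :=
  ∑ s ∈ Zf riemannZeta T (2 * T), ∑ s' ∈ Zf riemannZeta T (2 * T), mS s * mS s' *
    ((if |s.im - s'.im| * (Real.log T / (2 * Real.pi)) ≤ b then (1 : ℝ) else 0) * φ s.im)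

lemma PC_upper {T b u : ℝ} (hu : 0 ≤ u) {φ : ℝ → ℝ} (hφ : ∀ t, 0 ≤ φ t) :
    u * PC T b φ ≤ TR T (b + u) φ - TR T b φ := by
  unfold PC TR
  rw [Finset.mul_sum, ← Finset.sum_sub_distrib]
  refine Finset.sum_le_sum fun s _ => ?_
  rw [Finset.mul_sum, ← Finset.sum_sub_distrib]
  refine Finset.sum_le_sum fun s' _ => ?_
  have h1 := tri_upper (b := b) (x := |s.im - s'.im| * (Real.log T / (2 * Real.pi))) hu
  have h2 : 0 ≤ mS s * mS s' * φ s.im :=
    mul_nonneg (mul_nonneg (mS_nonneg _) (mS_nonneg _)) (hφ _)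
  have h3 := mul_le_mul_of_nonneg_left h1 h2
  refine le_trans (le_of_eq ?_) (h3.trans (le_of_eq ?_)) <;> ring

lemma PC_lower {T b u : ℝ} (hu : 0 ≤ u) {φ : ℝ → ℝ} (hφ : ∀ t, 0 ≤ φ t) :
    TR T b φ - TR T (b - u) φ ≤ u * PC T b φ := by
  unfold PC TR
  rw [Finset.mul_sum, ← Finset.sum_sub_distrib]
  refine Finset.sum_le_sum fun s _ => ?_
  rw [Finset.mul_sum, ← Finset.sum_sub_distrib]
  refine Finset.sum_le_sum fun s' _ => ?_
  have h1 := tri_lower (b := b) (x := |s.im - s'.im| * (Real.log T / (2 * Real.pi))) hu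
  have h2 : 0 ≤ mS s * mS s' * φ s.im :=
    mul_nonneg (mul_nonneg (mS_nonneg _) (mS_nonneg _)) (hφ _)
  have h3 := mul_le_mul_of_nonneg_left h1 h2
  refine le_trans (le_of_eq ?_) (h3.trans (le_of_eq ?_)) <;> ring

lemma PC_nonneg (T b : ℝ) {φ : ℝ → ℝ} (hφ : ∀ t, 0 ≤ φ t) : 0 ≤ PC T b φ := by
  unfold PC
  refine Finset.sum_nonneg fun s _ => Finset.sum_nonneg fun s' _ => ?_
  refine mul_nonneg (mul_nonneg (mS_nonneg _) (mS_nonneg _)) (mul_nonneg ?_ (hφ _))
  split_ifs <;> norm_num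

/-- **the number of pairs** -/
theorem pair_count : ∃ C : ℝ, 0 < C ∧ ∀ K : Set ℂ, IsCompact K →
    K ⊆ {z | 1 / 2 < z.re ∧ z.re < 1} → ∀ (Φ : (ℂ → ℂ) → ℝ) (B0 : ℝ), 0 < B0 → Fnl K Φ B0 →
    (∀ g, 0 ≤ Φ g) →
    ∀ m : ℝ, Tendsto (fun X : ℝ => (∫ t in (0 : ℝ)..X, Φ (sh t)) / X) atTop (𝓝 m) →
    ∀ b : ℝ, 0 < b → ∃ T0 : ℝ, 10 ≤ T0 ∧ ∀ T : ℝ, T0 ≤ T →
      |PC T b (fun t => Φ (sh t)) - 2 * b * m * (NN riemannZeta T (2 * T) : ℝ)| ≤
        C * B0 * Real.sqrt (1 + Real.log (1 + b)) * (NN riemannZeta T (2 * T) : ℝ) := by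
  obtain ⟨C0, hC0, htri⟩ := tri_main
  refine ⟨3 + 3 * C0, by positivity, fun K hK hKs Φ B0 hB0 hΦ hΦ0 m hm b hb => ?_⟩
  have hlog : 0 ≤ Real.log (1 + b) := Real.log_nonneg (by linarith)
  set u := Real.sqrt (1 + Real.log (1 + b)) with hu
  have hu2 : u ^ 2 = 1 + Real.log (1 + b) := by rw [hu]; exact Real.sq_sqrt (by linarith)
  have hu1 : 1 ≤ u := by
    rw [hu]
    rw [show (1 : ℝ) = Real.sqrt 1 by simp]
    exact Real.sqrt_le_sqrt (by simpa using hlog)
  have hu0 : 0 < u := by linarith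
  have hub : u ≤ 1 + b := by
    have h1 : Real.log (1 + b) ≤ b := by
      have := Real.log_le_sub_one_of_pos (show 0 < 1 + b by linarith)
      linarith
    nlinarith
  -- the mean value
  have hm0 : 0 ≤ m := by
    refine ge_of_tendsto hm ?_
    filter_upwards [eventually_gt_atTop 0] with X hX
    exact div_nonneg (intervalIntegral.integral_nonneg hX.le fun t _ => hΦ0 _) hX.le
  have hmB : m ≤ B0 := by
    refine le_of_tendsto hm ?_
    filter_upwards [eventually_gt_atTop 0] with X hX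
    rw [div_le_iff₀ hX]
    have h1 := intervalIntegral.norm_integral_le_of_norm_le_const (a := (0 : ℝ)) (b := X)
      (f := fun t => Φ (sh t)) (C := B0) (fun t _ => by rw [Real.norm_eq_abs]; exact hΦ.bdd _)
    rw [Real.norm_eq_abs, sub_zero, abs_of_pos hX] at h1
    exact (le_abs_self _).trans h1
  obtain ⟨T1, hT1, g1⟩ := htri K hK hKs Φ B0 hB0 hΦ m hm (b + u) (by linarith)
  obtain ⟨T2, hT2, g2⟩ := htri K hK hKs Φ B0 hB0 hΦ m hm b hb
  have hex : ∃ T3 : ℝ, 0 ≤ T3 ∧ ∀ T : ℝ, T3 ≤ T → u < b →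
      |TR T (b - u) (fun t => Φ (sh t)) - (b - u) ^ 2 * m * (NN riemannZeta T (2 * T) : ℝ)| ≤
        C0 * B0 * (1 + Real.log (1 + (b - u))) * (NN riemannZeta T (2 * T) : ℝ) := by
    rcases lt_or_ge u b with h | h
    · obtain ⟨T3, hT3, g3⟩ := htri K hK hKs Φ B0 hB0 hΦ m hm (b - u) (by linarith)
      exact ⟨T3, by linarith, fun T hT _ => g3 T hT⟩
    · exact ⟨0, le_rfl, fun T _ h2 => absurd h2 (not_lt.mpr h)⟩
  obtain ⟨T3, hT3, g3⟩ := hex
  refine ⟨max T1 (max T2 T3), hT1.trans (le_max_left _ _), fun T hT => ?_⟩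
  have a1 := g1 T ((le_max_left _ _).trans hT)
  have a2 := g2 T (((le_max_left _ _).trans (le_max_right _ _)).trans hT)
  have a3 := g3 T (((le_max_right _ _).trans (le_max_right _ _)).trans hT)
  set N : ℝ := (NN riemannZeta T (2 * T) : ℝ) with hN
  have hN0 : 0 ≤ N := Nat.cast_nonneg _
  set φ : ℝ → ℝ := fun t => Φ (sh t) with hφ
  have hφ0 : ∀ t, 0 ≤ φ t := fun t => hΦ0 _
  have hP0 := PC_nonneg T b hφ0
  rw [← hu2] at a2
  have l1 : 1 + Real.log (1 + (b + u)) ≤ 2 * u ^ 2 := by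
    have h1 : Real.log (1 + (b + u)) ≤ Real.log (2 * (1 + b)) :=
      Real.log_le_log (by linarith) (by linarith)
    rw [Real.log_mul (by norm_num) (by linarith)] at h1
    have h2 := Real.log_two_lt_d9
    rw [hu2]
    linarith
  have b1 : C0 * B0 * (1 + Real.log (1 + (b + u))) * N ≤ C0 * B0 * (2 * u ^ 2) * N := by gcongr
  -- upper bound
  have up : PC T b φ ≤ 2 * b * m * N + (3 + 3 * C0) * B0 * u * N := by
    have h1 := PC_upper (T := T) (b := b) hu0.le hφ0
    have h2 := (abs_le.1 a1).2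
    have h3 := (abs_le.1 a2).1
    have h4 : u * PC T b φ ≤ u * (2 * b * m * N + (u * m * N + 3 * C0 * B0 * u * N)) := by
      have e : u * (2 * b * m * N + (u * m * N + 3 * C0 * B0 * u * N)) =
          (b + u) ^ 2 * m * N - b ^ 2 * m * N + (C0 * B0 * (2 * u ^ 2) * N + C0 * B0 * u ^ 2 * N) := by
        ring
      rw [e]
      linarith
    have h5 := le_of_mul_le_mul_left h4 hu0
    have h6 : u * m * N ≤ u * B0 * N := by gcongr
    have h7 : 0 ≤ B0 * u * N := by positivity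
    have e2 : (3 + 3 * C0) * B0 * u * N = 3 * (B0 * u * N) + 3 * C0 * B0 * u * N := by ring
    have e3 : u * B0 * N = B0 * u * N := by ring
    rw [e2]
    linarith
  -- lower bound
  have lo : 2 * b * m * N - (3 + 3 * C0) * B0 * u * N ≤ PC T b φ := by
    have e2 : (3 + 3 * C0) * B0 * u * N = 3 * (B0 * u * N) + 3 * C0 * B0 * u * N := by ring
    have h7 : 0 ≤ B0 * u * N := by positivity
    have h8 : 0 ≤ C0 * B0 * u * N := by positivity
    rw [e2]
    rcases lt_or_ge u b with h | h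
    · have h1 := PC_lower (T := T) (b := b) hu0.le hφ0
      have h2 := (abs_le.1 a2).1
      have h3 := (abs_le.1 (a3 h)).2
      have l2 : 1 + Real.log (1 + (b - u)) ≤ u ^ 2 := by
        have h1 : Real.log (1 + (b - u)) ≤ Real.log (1 + b) :=
          Real.log_le_log (by linarith) (by linarith)
        rw [hu2]
        linarith
      have b2 : C0 * B0 * (1 + Real.log (1 + (b - u))) * N ≤ C0 * B0 * u ^ 2 * N := by gcongr
      have h4 : u * (2 * b * m * N - (u * m * N + 2 * C0 * B0 * u * N)) ≤ u * PC T b φ := by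
        have e : u * (2 * b * m * N - (u * m * N + 2 * C0 * B0 * u * N)) =
            b ^ 2 * m * N - (b - u) ^ 2 * m * N - (C0 * B0 * u ^ 2 * N + C0 * B0 * u ^ 2 * N) := by
          ring
        rw [e]
        linarith
      have h5 := le_of_mul_le_mul_left h4 hu0
      have h6 : u * m * N ≤ u * B0 * N := by gcongr
      have e3 : u * B0 * N = B0 * u * N := by ring
      linarith
    · have h1 : 2 * b * m * N ≤ 2 * u * B0 * N := by gcongr
      have e3 : 2 * u * B0 * N = 2 * (B0 * u * N) := by ring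
      linarith
  rw [abs_le]
  constructor <;> linarith

end Pool.Agent.R304.UQ
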