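import Mathlib

/-! Comparison of sums over points with integrals of counting functions. -/

open Filter Topology Set MeasureTheory

namespace Pool.Agent.R304.UQ

lemma int_of_bdd {f : ℝ → ℝ} (hf : Measurable f) {M : ℝ} (h : ∀ t, |f t| ≤ M) (A B : ℝ) :
    IntegrableOn f (Icc A B) :=
  Measure.integrableOn_of_bounded (M := M) (by rw [Real.volume_Icc]; exact ENNReal.ofReal_ne_top)
    hf.aestronglyMeasurable (Eventually.of_forall fun t => by rw [Real.norm_eq_abs]; exact h t)

/-- sums over points and integrals -/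
theorem gen {ι : Type*} (I : Finset ι) (μ : ι → ℝ) (hμ : ∀ i ∈ I, 0 ≤ μ i) (J : ι → Set ℝ)
    (hJ : ∀ i ∈ I, MeasurableSet (J i)) {A B : ℝ} (hJs : ∀ i ∈ I, J i ⊆ Icc A B) (x : ι → ℝ)
    {φ ω : ℝ → ℝ} (hφ : Continuous φ) (hωm : Measurable ω) {Mω : ℝ} (hωb : ∀ t, |ω t| ≤ Mω)
    (h : ∀ i ∈ I, ∀ t ∈ J i, |φ t - φ (x i)| ≤ ω t) :
    |(∫ t in Icc A B, φ t * ∑ i ∈ I, μ i * (J i).indicator (fun _ => (1 : ℝ)) t) -
      ∑ i ∈ I, μ i * ((volume (J i)).toReal * φ (x i))| ≤
    ∫ t in Icc A B, ω t * ∑ i ∈ I, μ i * (J i).indicator (fun _ => (1 : ℝ)) t := by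
  have hfin : ∀ i ∈ I, volume (J i) ≠ ⊤ := fun i hi => by
    refine ne_top_of_le_ne_top ?_ (measure_mono (hJs i hi))
    rw [Real.volume_Icc]; exact ENNReal.ofReal_ne_top
  have hφI : IntegrableOn φ (Icc A B) := hφ.continuousOn.integrableOn_compact isCompact_Icc
  have hωI : IntegrableOn ω (Icc A B) := int_of_bdd hωm hωb A B
  have key : ∀ f : ℝ → ℝ, IntegrableOn f (Icc A B) →
      (∫ t in Icc A B, f t * ∑ i ∈ I, μ i * (J i).indicator (fun _ => (1 : ℝ)) t) =
        ∑ i ∈ I, μ i * ∫ t in J i, f t := by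
    intro f hf
    have e1 : ∀ t, f t * ∑ i ∈ I, μ i * (J i).indicator (fun _ => (1 : ℝ)) t =
        ∑ i ∈ I, μ i * (J i).indicator f t := by
      intro t
      rw [Finset.mul_sum]
      refine Finset.sum_congr rfl fun i _ => ?_
      by_cases ht : t ∈ J i
      · rw [Set.indicator_of_mem ht, Set.indicator_of_mem ht]; ring
      · rw [Set.indicator_of_notMem ht, Set.indicator_of_notMem ht]; ring
    simp_rw [e1]
    rw [integral_finsetSum]
    · refine Finset.sum_congr rfl fun i hi => ?_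
      rw [integral_const_mul, setIntegral_indicator (hJ i hi), Set.inter_eq_right.mpr (hJs i hi)]
    · intro i hi
      exact (IntegrableOn.indicator hf (hJ i hi)).const_mul _
  rw [key φ hφI, key ω hωI, ← Finset.sum_sub_distrib]
  refine (Finset.abs_sum_le_sum_abs _ _).trans (Finset.sum_le_sum fun i hi => ?_)
  rw [← mul_sub, abs_mul, abs_of_nonneg (hμ i hi)]
  apply mul_le_mul_of_nonneg_left _ (hμ i hi)
  have e2 : (volume (J i)).toReal * φ (x i) = ∫ t in J i, φ (x i) := by
    rw [setIntegral_const, smul_eq_mul, Measure.real]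
  have hφJ : IntegrableOn φ (J i) := hφI.mono_set (hJs i hi)
  have hωJ : IntegrableOn ω (J i) := hωI.mono_set (hJs i hi)
  have hcJ : IntegrableOn (fun _ : ℝ => φ (x i)) (J i) := integrableOn_const (hfin i hi)
  rw [e2, ← integral_sub hφJ hcJ]
  refine abs_integral_le_integral_abs.trans ?_
  exact setIntegral_mono_on (hφJ.sub hcJ).abs hωJ (hJ i hi) fun t ht => h i hi t ht

/-- the length of the intersection of two windows -/
lemma vol_inter {h : ℝ} (hh : 0 ≤ h) (u v : ℝ) :
    (volume (Ico (u - h) u ∩ Ico (v - h) v)).toReal = max 0 (h - |u - v|) := by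
  rw [Ico_inter_Ico, Real.volume_Ico]
  have e : min u v - max (u - h) (v - h) = h - |u - v| := by
    rcases le_total u v with h1 | h1
    · rw [min_eq_left h1, max_eq_right (by linarith), abs_of_nonpos (by linarith)]; ring
    · rw [min_eq_right h1, max_eq_left (by linarith), abs_of_nonneg (by linarith)]; ring
  have e2 : (u ⊓ v) - (u - h) ⊔ (v - h) = h - |u - v| := e
  rw [e2]
  rcases le_total 0 (h - |u - v|) with h2 | h2
  · rw [ENNReal.toReal_ofReal h2, max_eq_right h2]
  · rw [ENNReal.ofReal_of_nonpos h2, max_eq_left h2]; simp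

lemma vol_Ico {h : ℝ} (hh : 0 ≤ h) (u : ℝ) : (volume (Ico (u - h) u)).toReal = h := by
  rw [Real.volume_Ico, ENNReal.toReal_ofReal (by linarith)]
  ring

/-- from the triangular sums to the counts: monotonicity -/
lemma tri_upper {b u x : ℝ} (hu : 0 ≤ u) : u * (if x ≤ b then (1 : ℝ) else 0) ≤
    max 0 (b + u - x) - max 0 (b - x) := by
  split_ifs with h
  · rw [max_eq_right (by linarith), max_eq_right (by linarith)]; linarith
  · push Not at h
    rw [max_eq_left (a := (0 : ℝ)) (b := b - x) (by linarith), mul_zero, sub_zero]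
    exact le_max_left _ _

lemma tri_lower {b u x : ℝ} (hu : 0 ≤ u) : max 0 (b - x) - max 0 (b - u - x) ≤
    u * (if x ≤ b then (1 : ℝ) else 0) := by
  split_ifs with h
  · rw [max_eq_right (a := (0 : ℝ)) (b := b - x) (by linarith), mul_one]
    rcases le_total 0 (b - u - x) with h1 | h1
    · rw [max_eq_right h1]; linarith
    · rw [max_eq_left h1]; linarith
  · push Not at h
    rw [max_eq_left (a := (0 : ℝ)) (b := b - x) (by linarith), mul_zero]
    have := le_max_left 0 (b - u - x)
    linarith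

end Pool.Agent.R304.UQ
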