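import Pool.Agent.R304.UQ.Gen

/-! Integrals of a counting function against weights. -/

open Filter Topology Set MeasureTheory

namespace Pool.Agent.R304.UQ

/-- the data -/
structure Dat (D : Set ℝ) (N o φ : ℝ → ℝ) (T a V B0 MN : ℝ) : Prop where
  Tp : 0 < T
  ap : 0 < a
  Vp : 0 ≤ V
  Bp : 0 < B0
  Nm : Measurable N
  N0 : ∀ t, 0 ≤ N t
  NM : ∀ t, N t ≤ MN
  om : Measurable o
  o0 : ∀ t, 0 ≤ o t
  o1 : ∀ t, o t ≤ 1
  pm : Measurable φ
  pB : ∀ t, |φ t| ≤ B0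
  DI : ∃ A B : ℝ, D = Icc A B
  Dv : (volume D).toReal ≤ 2 * T
  var : ∫ t in D, (N t - a) ^ 2 ≤ V * T

namespace Dat

variable {D : Set ℝ} {N o φ : ℝ → ℝ} {T a V B0 MN : ℝ}

lemma I (h : Dat D N o φ T a V B0 MN) {f : ℝ → ℝ} (hf : Measurable f) {C : ℝ}
    (hC : ∀ t, |f t| ≤ C) : IntegrableOn f D := by
  obtain ⟨A, B, hD⟩ := h.DI
  rw [hD]
  exact int_of_bdd hf hC _ _

lemma fin (h : Dat D N o φ T a V B0 MN) : volume D ≠ ⊤ := by
  obtain ⟨A, B, hD⟩ := h.DI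
  rw [hD, Real.volume_Icc]
  exact ENNReal.ofReal_ne_top

lemma MN0 (h : Dat D N o φ T a V B0 MN) : 0 ≤ MN := (h.N0 0).trans (h.NM 0)

lemma i0 (h : Dat D N o φ T a V B0 MN) : IntegrableOn (fun t => (N t - a) ^ 2) D :=
  h.I ((h.Nm.sub_const a).pow_const 2) (C := (MN + a) ^ 2) fun t => by
    rw [abs_of_nonneg (sq_nonneg _), ← sq_abs (N t - a)]
    apply pow_le_pow_left₀ (abs_nonneg _)
    have h1 := h.N0 t
    have h2 := h.NM t
    have h3 := h.ap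
    rw [abs_le]; constructor <;> linarith

lemma i1 (h : Dat D N o φ T a V B0 MN) : IntegrableOn N D :=
  h.I h.Nm (C := MN) fun t => by rw [abs_of_nonneg (h.N0 t)]; exact h.NM t

lemma i2 (h : Dat D N o φ T a V B0 MN) : IntegrableOn (fun t => N t ^ 2) D :=
  h.I (h.Nm.pow_const 2) (C := MN ^ 2) fun t => by
    rw [abs_of_nonneg (sq_nonneg _)]; exact pow_le_pow_left₀ (h.N0 t) (h.NM t) 2

lemma i3 (h : Dat D N o φ T a V B0 MN) : IntegrableOn o D :=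
  h.I h.om (C := 1) fun t => by rw [abs_of_nonneg (h.o0 t)]; exact h.o1 t

lemma i4 (h : Dat D N o φ T a V B0 MN) : IntegrableOn (fun t => o t * N t) D :=
  h.I (h.om.mul h.Nm) (C := 1 * MN) fun t => by
    rw [abs_of_nonneg (mul_nonneg (h.o0 t) (h.N0 t))]
    exact mul_le_mul (h.o1 t) (h.NM t) (h.N0 t) zero_le_one

lemma i5 (h : Dat D N o φ T a V B0 MN) : IntegrableOn (fun t => o t * N t ^ 2) D :=
  h.I (h.om.mul (h.Nm.pow_const 2)) (C := 1 * MN ^ 2) fun t => by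
    rw [abs_of_nonneg (mul_nonneg (h.o0 t) (sq_nonneg _))]
    exact mul_le_mul (h.o1 t) (pow_le_pow_left₀ (h.N0 t) (h.NM t) 2) (sq_nonneg _) zero_le_one

lemma i6 (h : Dat D N o φ T a V B0 MN) : IntegrableOn (fun t => φ t * N t) D :=
  h.I (h.pm.mul h.Nm) (C := B0 * MN) fun t => by
    rw [abs_mul, abs_of_nonneg (h.N0 t)]
    exact mul_le_mul (h.pB t) (h.NM t) (h.N0 t) h.Bp.le

lemma i7 (h : Dat D N o φ T a V B0 MN) : IntegrableOn (fun t => φ t * (N t - a) ^ 2) D :=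
  h.I (h.pm.mul ((h.Nm.sub_const a).pow_const 2)) (C := B0 * (MN + a) ^ 2) fun t => by
    rw [abs_mul, abs_of_nonneg (sq_nonneg (N t - a)), ← sq_abs (N t - a)]
    refine mul_le_mul (h.pB t) (pow_le_pow_left₀ (abs_nonneg _) ?_ 2) (by positivity) h.Bp.le
    have h1 := h.N0 t
    have h2 := h.NM t
    have h3 := h.ap
    rw [abs_le]; constructor <;> linarith

lemma i8 (h : Dat D N o φ T a V B0 MN) : IntegrableOn φ D := h.I h.pm h.pB

lemma ic (h : Dat D N o φ T a V B0 MN) (c : ℝ) : IntegrableOn (fun _ : ℝ => c) D :=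
  integrableOn_const h.fin

lemma vc (h : Dat D N o φ T a V B0 MN) {c : ℝ} (hc : 0 ≤ c) : ∫ _ in D, c ≤ 2 * T * c := by
  rw [setIntegral_const, smul_eq_mul, Measure.real]
  exact mul_le_mul_of_nonneg_right h.Dv hc

lemma v00 (_ : Dat D N o φ T a V B0 MN) : 0 ≤ ∫ t in D, (N t - a) ^ 2 :=
  integral_nonneg fun t => sq_nonneg _

lemma v2 (h : Dat D N o φ T a V B0 MN) : ∫ t in D, N t ^ 2 ≤ (4 * a ^ 2 + 2 * V) * T := by
  have j1 := h.ic (2 * a ^ 2)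
  have j2 := h.i0.const_mul 2
  have h1 : ∫ t in D, N t ^ 2 ≤ ∫ t in D, (2 * a ^ 2 + 2 * (N t - a) ^ 2) :=
    setIntegral_mono h.i2 (j1.add j2) fun t => by
      show N t ^ 2 ≤ 2 * a ^ 2 + 2 * (N t - a) ^ 2
      nlinarith only [sq_nonneg (N t - 2 * a)]
  have h2 : ∫ t in D, (2 * a ^ 2 + 2 * (N t - a) ^ 2) =
      (∫ _ in D, (2 * a ^ 2)) + 2 * ∫ t in D, (N t - a) ^ 2 := by
    rw [integral_add j1 j2]
    congr 1
    exact integral_const_mul _ _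
  have h3 := h.vc (c := 2 * a ^ 2) (by positivity)
  have h4 := h.var
  rw [h2] at h1
  have h5 : (4 * a ^ 2 + 2 * V) * T = 2 * T * (2 * a ^ 2) + 2 * (V * T) := by ring
  rw [h5]
  linarith

lemma v1 (h : Dat D N o φ T a V B0 MN) : ∫ t in D, N t ≤ (1 + 2 * a ^ 2 + V) * T := by
  have j1 := h.ic (1 / 2)
  have j2 := h.i2.const_mul (1 / 2)
  have h1 : ∫ t in D, N t ≤ ∫ t in D, (1 / 2 + 1 / 2 * N t ^ 2) :=
    setIntegral_mono h.i1 (j1.add j2) fun t => by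
      show N t ≤ 1 / 2 + 1 / 2 * N t ^ 2
      nlinarith only [sq_nonneg (N t - 1)]
  have h2 : ∫ t in D, (1 / 2 + 1 / 2 * N t ^ 2) =
      (∫ _ in D, (1 / 2 : ℝ)) + 1 / 2 * ∫ t in D, N t ^ 2 := by
    rw [integral_add j1 j2, integral_const_mul]
  have h3 := h.vc (c := 1 / 2) (by positivity)
  have h4 := h.v2
  rw [h2] at h1
  have h5 : (1 + 2 * a ^ 2 + V) * T = 2 * T * (1 / 2) + 1 / 2 * ((4 * a ^ 2 + 2 * V) * T) := by ring
  rw [h5]
  linarith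

lemma v4 (h : Dat D N o φ T a V B0 MN) {A : ℝ} (hA : 0 < A) {η : ℝ}
    (vo : ∫ t in D, o t ≤ η * (3 * T)) :
    ∫ t in D, o t * N t ≤ A * (η * (3 * T)) + A⁻¹ * ((4 * a ^ 2 + 2 * V) * T) := by
  have j1 := h.i3.const_mul A
  have j2 := h.i2.const_mul A⁻¹
  have h1 : ∫ t in D, o t * N t ≤ ∫ t in D, (A * o t + A⁻¹ * N t ^ 2) :=
    setIntegral_mono h.i4 (j1.add j2) fun t => by
      show o t * N t ≤ A * o t + A⁻¹ * N t ^ 2
      have h1 : A⁻¹ * N t ^ 2 = N t ^ 2 / A := by ring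
      rw [h1]
      have n0 := h.N0 t
      have p0 := h.o0 t
      rcases le_total (N t) A with h2 | h2
      · have h3 : o t * N t ≤ o t * A := mul_le_mul_of_nonneg_left h2 p0
        have h4 : 0 ≤ N t ^ 2 / A := by positivity
        linarith
      · have h3 : N t ≤ N t ^ 2 / A := by
          rw [le_div_iff₀ hA]; nlinarith only [n0, h2]
        have h4 : o t * N t ≤ 1 * N t := mul_le_mul_of_nonneg_right (h.o1 t) n0
        have h5 : 0 ≤ A * o t := mul_nonneg hA.le p0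
        linarith
  have h2 : ∫ t in D, (A * o t + A⁻¹ * N t ^ 2) =
      A * (∫ t in D, o t) + A⁻¹ * ∫ t in D, N t ^ 2 := by
    rw [integral_add j1 j2, integral_const_mul, integral_const_mul]
  rw [h2] at h1
  have h3 : A * (∫ t in D, o t) ≤ A * (η * (3 * T)) := mul_le_mul_of_nonneg_left vo hA.le
  have h4 : A⁻¹ * ∫ t in D, N t ^ 2 ≤ A⁻¹ * ((4 * a ^ 2 + 2 * V) * T) :=
    mul_le_mul_of_nonneg_left h.v2 (by positivity)
  linarith

lemma v5 (h : Dat D N o φ T a V B0 MN) {η : ℝ} (vo : ∫ t in D, o t ≤ η * (3 * T)) :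
    ∫ t in D, o t * N t ^ 2 ≤ 2 * a ^ 2 * (η * (3 * T)) + 2 * (V * T) := by
  have j1 := h.i3.const_mul (2 * a ^ 2)
  have j2 := h.i0.const_mul 2
  have h1 : ∫ t in D, o t * N t ^ 2 ≤ ∫ t in D, (2 * a ^ 2 * o t + 2 * (N t - a) ^ 2) :=
    setIntegral_mono h.i5 (j1.add j2) fun t => by
      show o t * N t ^ 2 ≤ 2 * a ^ 2 * o t + 2 * (N t - a) ^ 2
      have h1 : N t ^ 2 ≤ 2 * a ^ 2 + 2 * (N t - a) ^ 2 := by
        nlinarith only [sq_nonneg (N t - 2 * a)]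
      have h2 := mul_le_mul_of_nonneg_left h1 (h.o0 t)
      have h3 : o t * (2 * (N t - a) ^ 2) ≤ 1 * (2 * (N t - a) ^ 2) :=
        mul_le_mul_of_nonneg_right (h.o1 t) (by positivity)
      linarith
  have h2 : ∫ t in D, (2 * a ^ 2 * o t + 2 * (N t - a) ^ 2) =
      2 * a ^ 2 * (∫ t in D, o t) + 2 * ∫ t in D, (N t - a) ^ 2 := by
    rw [integral_add j1 j2, integral_const_mul, integral_const_mul]
  rw [h2] at h1
  have h3 : 2 * a ^ 2 * (∫ t in D, o t) ≤ 2 * a ^ 2 * (η * (3 * T)) :=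
    mul_le_mul_of_nonneg_left vo (by positivity)
  have h4 := h.var
  linarith

/-- first error integral -/
lemma w1 (h : Dat D N o φ T a V B0 MN) {A η ε1 δ : ℝ} (hA : 0 < A) (hε1 : 0 ≤ ε1)
    (vo : ∫ t in D, o t ≤ η * (3 * T)) (h1 : ε1 * (4 * a ^ 2 + 2 * V + 1) ≤ δ)
    (h2 : A * η ≤ δ) (h3 : A⁻¹ * (4 * a ^ 2 + 2 * V + 1) ≤ δ) :
    ∫ t in D, (3 * ε1 + 2 * B0 * o t) * N t ≤ (3 + 8 * B0) * δ * T := by
  have j1 := h.i1.const_mul (3 * ε1)
  have j2 := h.i4.const_mul (2 * B0)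
  have e : (fun t => (3 * ε1 + 2 * B0 * o t) * N t) =
      fun t => 3 * ε1 * N t + 2 * B0 * (o t * N t) := by
    funext t; ring
  rw [e, integral_add j1 j2, integral_const_mul, integral_const_mul]
  have hT := h.Tp
  have hB := h.Bp
  have hV := h.Vp
  have k1 : 3 * ε1 * (∫ t in D, N t) ≤ 3 * ε1 * ((1 + 2 * a ^ 2 + V) * T) :=
    mul_le_mul_of_nonneg_left h.v1 (by positivity)
  have k2 : 3 * ε1 * ((1 + 2 * a ^ 2 + V) * T) ≤ 3 * δ * T := by
    have : ε1 * (1 + 2 * a ^ 2 + V) ≤ ε1 * (4 * a ^ 2 + 2 * V + 1) :=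
      mul_le_mul_of_nonneg_left (by nlinarith only [sq_nonneg a, hV]) hε1
    have h4 := mul_le_mul_of_nonneg_right (this.trans h1) hT.le
    nlinarith only [h4]
  have k3 : 2 * B0 * (∫ t in D, o t * N t) ≤
      2 * B0 * (A * (η * (3 * T)) + A⁻¹ * ((4 * a ^ 2 + 2 * V) * T)) :=
    mul_le_mul_of_nonneg_left (h.v4 hA vo) (by positivity)
  have k4 : A * (η * (3 * T)) + A⁻¹ * ((4 * a ^ 2 + 2 * V) * T) ≤ 4 * δ * T := by
    have h4 := mul_le_mul_of_nonneg_right h2 hT.le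
    have h5 : A⁻¹ * (4 * a ^ 2 + 2 * V) ≤ A⁻¹ * (4 * a ^ 2 + 2 * V + 1) :=
      mul_le_mul_of_nonneg_left (by linarith) (by positivity)
    have h6 := mul_le_mul_of_nonneg_right (h5.trans h3) hT.le
    nlinarith only [h4, h6]
  have k5 := mul_le_mul_of_nonneg_left k4 (show 0 ≤ 2 * B0 by positivity)
  nlinarith only [k1, k2, k3, k5]

/-- second error integral -/
lemma w2 (h : Dat D N o φ T a V B0 MN) {η ε1 δ : ℝ} (hε1 : 0 ≤ ε1)
    (vo : ∫ t in D, o t ≤ η * (3 * T)) (h1 : ε1 * (4 * a ^ 2 + 2 * V + 1) ≤ δ)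
    (h2 : 6 * a ^ 2 * η ≤ 2 * δ) :
    ∫ t in D, (3 * ε1 + 2 * B0 * o t) * N t ^ 2 ≤ (3 + 4 * B0) * δ * T + 4 * B0 * V * T := by
  have j1 := h.i2.const_mul (3 * ε1)
  have j2 := h.i5.const_mul (2 * B0)
  have e : (fun t => (3 * ε1 + 2 * B0 * o t) * N t ^ 2) =
      fun t => 3 * ε1 * N t ^ 2 + 2 * B0 * (o t * N t ^ 2) := by
    funext t; ring
  rw [e, integral_add j1 j2, integral_const_mul, integral_const_mul]
  have hT := h.Tp
  have hB := h.Bp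
  have hV := h.Vp
  have k1 : 3 * ε1 * (∫ t in D, N t ^ 2) ≤ 3 * ε1 * ((4 * a ^ 2 + 2 * V) * T) :=
    mul_le_mul_of_nonneg_left h.v2 (by positivity)
  have k2 : 3 * ε1 * ((4 * a ^ 2 + 2 * V) * T) ≤ 3 * δ * T := by
    have : ε1 * (4 * a ^ 2 + 2 * V) ≤ ε1 * (4 * a ^ 2 + 2 * V + 1) :=
      mul_le_mul_of_nonneg_left (by linarith) hε1
    have h4 := mul_le_mul_of_nonneg_right (this.trans h1) hT.le
    nlinarith only [h4]
  have k3 : 2 * B0 * (∫ t in D, o t * N t ^ 2) ≤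
      2 * B0 * (2 * a ^ 2 * (η * (3 * T)) + 2 * (V * T)) :=
    mul_le_mul_of_nonneg_left (h.v5 vo) (by positivity)
  have k4 : 2 * a ^ 2 * (η * (3 * T)) ≤ 2 * δ * T := by
    have h4 := mul_le_mul_of_nonneg_right h2 hT.le
    nlinarith only [h4]
  have k5 := mul_le_mul_of_nonneg_left k4 (show 0 ≤ 2 * B0 by positivity)
  nlinarith only [k1, k2, k3, k5]

/-- expansion of the square -/
lemma w5 (h : Dat D N o φ T a V B0 MN) {m p q : ℝ}
    (h4 : |(∫ t in D, φ t * N t) - a * m * T| ≤ p) (h3 : |(∫ t in D, φ t) - m * T| ≤ q) :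
    |(∫ t in D, φ t * N t ^ 2) - a ^ 2 * m * T| ≤ B0 * V * T + 2 * a * p + a ^ 2 * q := by
  have ha := h.ap
  have j7 := h.i7
  have j6 := h.i6.const_mul (2 * a)
  have j8 := h.i8.const_mul (a ^ 2)
  have e : (fun t => φ t * N t ^ 2) =
      fun t => (φ t * (N t - a) ^ 2 + 2 * a * (φ t * N t)) - a ^ 2 * φ t := by
    funext t; ring
  have e6 : ∫ t in D, φ t * N t ^ 2 = (∫ t in D, φ t * (N t - a) ^ 2) +
      2 * a * (∫ t in D, φ t * N t) - a ^ 2 * ∫ t in D, φ t := by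
    have j76 : IntegrableOn (fun t => φ t * (N t - a) ^ 2 + 2 * a * (φ t * N t)) D := j7.add j6
    rw [e, integral_sub j76 j8, integral_add j7 j6, integral_const_mul, integral_const_mul]
  have h1 : |∫ t in D, φ t * (N t - a) ^ 2| ≤ B0 * V * T := by
    have g1 : |∫ t in D, φ t * (N t - a) ^ 2| ≤ ∫ t in D, |φ t * (N t - a) ^ 2| :=
      abs_integral_le_integral_abs
    have g2 : ∫ t in D, |φ t * (N t - a) ^ 2| ≤ ∫ t in D, B0 * (N t - a) ^ 2 := by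
      refine setIntegral_mono j7.abs (h.i0.const_mul B0) fun t => ?_
      show |φ t * (N t - a) ^ 2| ≤ B0 * (N t - a) ^ 2
      rw [abs_mul, abs_of_nonneg (sq_nonneg (N t - a))]
      exact mul_le_mul_of_nonneg_right (h.pB t) (sq_nonneg _)
    have g3 : ∫ t in D, B0 * (N t - a) ^ 2 = B0 * ∫ t in D, (N t - a) ^ 2 :=
      integral_const_mul _ _
    have g4 : B0 * ∫ t in D, (N t - a) ^ 2 ≤ B0 * (V * T) :=
      mul_le_mul_of_nonneg_left h.var h.Bp.le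
    have g5 : B0 * (V * T) = B0 * V * T := by ring
    linarith
  have e7 : (∫ t in D, φ t * N t ^ 2) - a ^ 2 * m * T = (∫ t in D, φ t * (N t - a) ^ 2) +
      2 * a * ((∫ t in D, φ t * N t) - a * m * T) - a ^ 2 * ((∫ t in D, φ t) - m * T) := by
    rw [e6]; ring
  rw [e7]
  have k2 : |2 * a * ((∫ t in D, φ t * N t) - a * m * T)| ≤ 2 * a * p := by
    rw [abs_mul, abs_of_pos (by positivity)]
    exact mul_le_mul_of_nonneg_left h4 (by positivity)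
  have k3 : |a ^ 2 * ((∫ t in D, φ t) - m * T)| ≤ a ^ 2 * q := by
    rw [abs_mul, abs_of_pos (by positivity)]
    exact mul_le_mul_of_nonneg_left h3 (by positivity)
  obtain ⟨a1, a2⟩ := abs_le.1 h1
  obtain ⟨a3, a4⟩ := abs_le.1 k2
  obtain ⟨a5, a6⟩ := abs_le.1 k3
  rw [abs_le]
  constructor <;> linarith

end Dat

end Pool.Agent.R304.UQ
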