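import Pool.Agent.R304.UQ.Var
import Pool.Agent.R304.UQ.Ord
import Pool.Agent.R304.UQ.Int

/-! Triangular pair sums weighted by functionals of zeta, unconditionally. -/

open Complex Filter Topology Set MeasureTheory

namespace Pool.Agent.R304.UQ

open ZU H370 H370.A2 H370.AS H295SI TH803TW TH803UC R304.UN R304.UP
open Pool.Agent.TH850.UV (NS mS mS_nonneg NS_nonneg NS_meas NS_le sq_int)

/-- the triangular pair sum -/
noncomputable def TR (T a : ℝ) (φ : ℝ → ℝ) : ℝ :=
  ∑ s ∈ Zf riemannZeta T (2 * T), ∑ s' ∈ Zf riemannZeta T (2 * T), mS s * mS s' *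
    (max 0 (a - |s.im - s'.im| * (Real.log T / (2 * Real.pi))) * φ s.im)

lemma torus_uc {k : ℕ} (α : Fin k → ℝ) (g : C(UnitAddTorus (Fin k), ℝ)) {ε : ℝ} (hε : 0 < ε) :
    ∃ δ : ℝ, 0 < δ ∧ ∀ t u : ℝ, |t - u| ≤ δ → |g (torusPt α t) - g (torusPt α u)| ≤ ε := by
  have h1 : UniformContinuous (fun t : ℝ => torusPt α t) := by
    unfold torusPt
    refine uniformContinuous_pi.mpr fun j => ?_
    have h2 : UniformContinuous (fun x : ℝ => (x : AddCircle (1 : ℝ))) :=
      uniformContinuous_addMonoidHom_of_continuous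
        (f := QuotientAddGroup.mk' (AddSubgroup.zmultiples (1 : ℝ))) (AddCircle.continuous_mk' _)
    exact h2.comp (Real.uniformContinuous_const_mul (x := α j))
  have h2 : UniformContinuous (fun t : ℝ => g (torusPt α t)) :=
    (CompactSpace.uniformContinuous_of_continuous g.continuous).comp h1
  obtain ⟨δ, hδ, h3⟩ := Metric.uniformContinuous_iff.mp h2 ε hε
  refine ⟨δ / 2, by positivity, fun t u htu => ?_⟩
  have h4 := h3 (a := t) (b := u) (by rw [Real.dist_eq]; linarith)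
  rw [Real.dist_eq] at h4
  exact h4.le

lemma NS_ind (S : Finset ℂ) (h t : ℝ) : NS S h t =
    ∑ s ∈ S, mS s * (Ico (s.im - h) s.im).indicator (fun _ => (1 : ℝ)) t := by
  unfold NS
  refine Finset.sum_congr rfl fun s _ => ?_
  congr 1
  by_cases ht : t < s.im ∧ s.im ≤ t + h
  · rw [if_pos ht, Set.indicator_of_mem]
    exact ⟨by linarith [ht.2], ht.1⟩
  · rw [if_neg ht, Set.indicator_of_notMem]
    rintro ⟨h1, h2⟩
    exact ht ⟨h2, by linarith⟩

lemma NS_sq_ind (S : Finset ℂ) (h t : ℝ) : NS S h t ^ 2 =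
    ∑ p ∈ S ×ˢ S, (mS p.1 * mS p.2) *
      (Ico (p.1.im - h) p.1.im ∩ Ico (p.2.im - h) p.2.im).indicator (fun _ => (1 : ℝ)) t := by
  rw [NS_ind, _root_.sq, Finset.sum_mul_sum, ← Finset.sum_product']
  refine Finset.sum_congr rfl fun p _ => ?_
  have key : ∀ (U V : Set ℝ) (a b : ℝ), a * U.indicator (fun _ => (1 : ℝ)) t *
      (b * V.indicator (fun _ => (1 : ℝ)) t) = a * b * (U ∩ V).indicator (fun _ => (1 : ℝ)) t := by
    intro U V a b
    by_cases h1 : t ∈ U
    · by_cases h2 : t ∈ V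
      · rw [Set.indicator_of_mem h1, Set.indicator_of_mem h2,
          Set.indicator_of_mem (show t ∈ U ∩ V from ⟨h1, h2⟩)]
        ring
      · rw [Set.indicator_of_mem h1, Set.indicator_of_notMem h2,
          Set.indicator_of_notMem (show t ∉ U ∩ V from fun h3 => h2 h3.2)]
        ring
    · rw [Set.indicator_of_notMem h1,
        Set.indicator_of_notMem (show t ∉ U ∩ V from fun h3 => h1 h3.1)]
      ring
  exact key _ _ _ _

/-- **the triangular pair sums** -/
theorem tri_main : ∃ C : ℝ, 0 < C ∧ ∀ K : Set ℂ, IsCompact K →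
    K ⊆ {z | 1 / 2 < z.re ∧ z.re < 1} → ∀ (Φ : (ℂ → ℂ) → ℝ) (B0 : ℝ), 0 < B0 → Fnl K Φ B0 →
    ∀ m : ℝ, Tendsto (fun X : ℝ => (∫ t in (0 : ℝ)..X, Φ (sh t)) / X) atTop (𝓝 m) →
    ∀ a : ℝ, 0 < a → ∃ T0 : ℝ, 10 ≤ T0 ∧ ∀ T : ℝ, T0 ≤ T →
      |TR T a (fun t => Φ (sh t)) - a ^ 2 * m * (NN riemannZeta T (2 * T) : ℝ)| ≤
        C * B0 * (1 + Real.log (1 + a)) * (NN riemannZeta T (2 * T) : ℝ) := by
  obtain ⟨Cv, hCv, hvar⟩ := var_ext
  refine ⟨10 * Cv + 4, by positivity, fun K hK hKs Φ B0 hB0 hΦ m hm a ha => ?_⟩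
  have hpi := Real.pi_pos
  have hlog : 0 ≤ Real.log (1 + a) := Real.log_nonneg (by linarith)
  obtain ⟨V, hV⟩ : ∃ V, V = Cv * (1 + Real.log (1 + a)) := ⟨_, rfl⟩
  have hV0 : 0 ≤ V := by rw [hV]; positivity
  obtain ⟨Q, hQ⟩ : ∃ Q, Q = 4 * a ^ 2 + 2 * V + 1 := ⟨_, rfl⟩
  have hQ1 : 1 ≤ Q := by rw [hQ]; nlinarith [sq_nonneg a]
  obtain ⟨P, hP⟩ : ∃ P, P = 2 * a * (3 + 8 * B0 + 2 * a + B0 * a) + a ^ 2 + 3 + 4 * B0 := ⟨_, rfl⟩
  have hP0 : 0 < P := by rw [hP]; positivity
  obtain ⟨δ, hδ⟩ : ∃ δ, δ = min (min (1 / 2) (1 / (a ^ 2 + 1))) (B0 / P) := ⟨_, rfl⟩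
  have hδ0 : 0 < δ := by rw [hδ]; positivity
  have hδ1 : δ ≤ 1 / 2 := by rw [hδ]; exact (min_le_left _ _).trans (min_le_left _ _)
  have hδ2 : δ * (a ^ 2 + 1) ≤ 1 := by
    have h1 : δ ≤ 1 / (a ^ 2 + 1) := by rw [hδ]; exact (min_le_left _ _).trans (min_le_right _ _)
    rwa [le_div_iff₀ (by positivity)] at h1
  have hδ3 : δ * P ≤ B0 := by
    have h1 : δ ≤ B0 / P := by rw [hδ]; exact min_le_right _ _
    rwa [le_div_iff₀ hP0] at h1
  obtain ⟨ε1, hε1⟩ : ∃ ε1, ε1 = δ / Q := ⟨_, rfl⟩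
  have hε10 : 0 < ε1 := by rw [hε1]; positivity
  have hε1Q : ε1 * Q = δ := by rw [hε1]; field_simp
  obtain ⟨A, hA⟩ : ∃ A, A = Q / δ := ⟨_, rfl⟩
  have hA0 : 0 < A := by rw [hA]; positivity
  obtain ⟨η, hη⟩ : ∃ η, η = δ ^ 2 / Q := ⟨_, rfl⟩
  have hη0 : 0 < η := by rw [hη]; positivity
  have hAη : A * η = δ := by rw [hA, hη]; field_simp
  have hQA : Q / A = δ := by rw [hA]; field_simp
  obtain ⟨M, g, Bd, q1, q2, -, X0, hX0, q4⟩ := approxm hK hKs hΦ hm (ε := ε1) (η := η) hε10 hη0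
  obtain ⟨δ0, hδ00, huc⟩ := torus_uc (al M) g hε10
  obtain ⟨T1, hT1, hv⟩ := hvar a ha
  obtain ⟨T2, hT2, hord⟩ := ord_mean hK hKs hΦ hm hδ0
  obtain ⟨Cs, hCs, hcount⟩ := H965SI.countShort riemannZeta good_zeta
  -- the mean value
  have hmB : |m| ≤ B0 := by
    refine le_of_tendsto hm.abs ?_
    filter_upwards [eventually_gt_atTop 0] with X hX
    rw [abs_div, abs_of_pos hX, div_le_iff₀ hX]
    have h1 := intervalIntegral.norm_integral_le_of_norm_le_const (a := (0 : ℝ)) (b := X)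
      (f := fun t => Φ (sh t)) (C := B0) (fun t _ => by rw [Real.norm_eq_abs]; exact hΦ.bdd _)
    rw [Real.norm_eq_abs, sub_zero, abs_of_pos hX] at h1
    exact h1
  have hmX : ∃ X1 : ℝ, 0 < X1 ∧ ∀ X ≥ X1, |(∫ t in (0 : ℝ)..X, Φ (sh t)) - m * X| ≤ δ / 4 * X := by
    obtain ⟨X1, hX1⟩ := (Metric.tendsto_atTop.mp hm) (δ / 4) (by positivity)
    refine ⟨max X1 1, lt_max_of_lt_right one_pos, fun X hX => ?_⟩
    have hXp : 0 < X := lt_of_lt_of_le one_pos ((le_max_right _ _).trans hX)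
    have h1 := hX1 X ((le_max_left _ _).trans hX)
    rw [Real.dist_eq] at h1
    have e1 : (∫ t in (0 : ℝ)..X, Φ (sh t)) / X - m = ((∫ t in (0 : ℝ)..X, Φ (sh t)) - m * X) / X := by
      field_simp
    rw [e1, abs_div, abs_of_pos hXp, div_lt_iff₀ hXp] at h1
    exact h1.le
  obtain ⟨X1, hX10, hX1⟩ := hmX
  have ev1 : ∀ᶠ T : ℝ in atTop, 1 ≤ Real.log T ∧ 2 * Real.pi * a / min δ0 1 ≤ Real.log T ∧
      4 * Real.pi * Cs / δ ≤ Real.log T ∧ 4 * B0 / δ ≤ T :=
    (Real.tendsto_log_atTop.eventually_ge_atTop _).and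
      ((Real.tendsto_log_atTop.eventually_ge_atTop _).and
      ((Real.tendsto_log_atTop.eventually_ge_atTop _).and (eventually_ge_atTop _)))
  have ev2 : ∀ᶠ T : ℝ in atTop, Real.log T ^ 2 / (1 * T + 0) < 1 :=
    (Real.tendsto_pow_log_div_mul_add_atTop 1 0 2 one_ne_zero).eventually
      (gt_mem_nhds (show (0 : ℝ) < 1 by norm_num))
  obtain ⟨T3, hT3⟩ := (ev1.and ev2).exists_forall_of_atTop
  refine ⟨max (max T1 T2) (max (max T3 X0) (X1 + 1)), le_max_of_le_left (le_max_of_le_left hT1),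
    fun T hT => ?_⟩
  have t1 : T1 ≤ T := ((le_max_left _ _).trans (le_max_left _ _)).trans hT
  have t2 : T2 ≤ T := ((le_max_right _ _).trans (le_max_left _ _)).trans hT
  have t3 : T3 ≤ T := (((le_max_left _ _).trans (le_max_left _ _)).trans (le_max_right _ _)).trans hT
  have t4 : X0 ≤ T := (((le_max_right _ _).trans (le_max_left _ _)).trans (le_max_right _ _)).trans hT
  have t5 : X1 + 1 ≤ T := ((le_max_right _ _).trans (le_max_right _ _)).trans hT
  have hT10 : 10 ≤ T := hT1.trans t1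
  have hTpos : 0 < T := by linarith
  obtain ⟨⟨e1, e2, e3, e4⟩, e5⟩ := hT3 T t3
  have hvT := hv T t1
  have hordT := hord T t2
  set L := Real.log T with hL
  have hL0 : 0 < L := by linarith
  set h := 2 * Real.pi * a / L with hh
  have hh0 : 0 < h := by positivity
  have hhm : h ≤ min δ0 1 := by
    rw [hh, div_le_iff₀ hL0]
    rw [div_le_iff₀ (by positivity)] at e2
    linarith
  have hh1 : h ≤ 1 := hhm.trans (min_le_right _ _)
  have hhδ : h ≤ δ0 := hhm.trans (min_le_left _ _)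
  set S := Zf riemannZeta T (2 * T) with hS
  set N1 : ℝ := (NN riemannZeta T (2 * T) : ℝ) with hN1
  have hN10 : 0 ≤ N1 := Nat.cast_nonneg _
  set φ : ℝ → ℝ := fun t => Φ (sh t) with hφ
  have hφc : Continuous φ := sh_cont hK hKs hΦ
  have hφB : ∀ t, |φ t| ≤ B0 := fun t => hΦ.bdd _
  -- the number of zeros
  have hN1a : |N1 - T * L / (2 * Real.pi)| ≤ δ * (T * L / (2 * Real.pi)) := by
    have h1 := (hcount T hT10 T (by linarith) le_rfl T (2 * T) le_rfl (by linarith)
      (by linarith) (by linarith)).1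
    refine h1.trans ?_
    rw [one_mul, add_zero, div_lt_iff₀ hTpos, one_mul] at e5
    rw [div_le_iff₀ hδ0] at e3
    have h2 : Cs * (T + L ^ 2) ≤ Cs * (2 * T) := by
      apply mul_le_mul_of_nonneg_left _ hCs.le
      linarith
    have h3 : Cs * (2 * T) = (4 * Real.pi * Cs) * T / (2 * Real.pi) := by
      field_simp
      ring
    have h4 : (4 * Real.pi * Cs) * T / (2 * Real.pi) ≤ (L * δ) * T / (2 * Real.pi) := by gcongr
    have h5 : (L * δ) * T / (2 * Real.pi) = δ * (T * L / (2 * Real.pi)) := by ring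
    linarith
  set X := T * L / (2 * Real.pi) with hX
  have hX00 : 0 < X := by positivity
  have hhX : h * X = a * T := by rw [hh, hX]; field_simp
  have hXN : X ≤ 2 * N1 := by
    have h1 := (abs_le.1 hN1a).1
    nlinarith only [h1, hδ1, hX00]
  have hNX : N1 ≤ 2 * X := by
    have h1 := (abs_le.1 hN1a).2
    nlinarith only [h1, hδ1, hX00]
  -- the exceptional set
  set W : Set ℝ := {t : ℝ | ∃ t' ∈ Bd, |t - t'| ≤ 1} with hW
  set E := toMeasurable volume (W ∩ Icc 0 (3 * T)) with hE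
  have hEm : MeasurableSet E := measurableSet_toMeasurable _ _
  have hEv : volume E ≤ ENNReal.ofReal (η * (3 * T)) := by
    rw [hE, measure_toMeasurable]
    exact q4 (3 * T) (by linarith)
  have hEr : (volume E).toReal ≤ η * (3 * T) :=
    ENNReal.toReal_le_of_le_ofReal (by positivity) hEv
  set o : ℝ → ℝ := E.indicator (fun _ => (1 : ℝ)) with ho
  have hom : Measurable o := measurable_const.indicator hEm
  have ho0 : ∀ t, 0 ≤ o t := fun t => Set.indicator_nonneg (fun _ _ => zero_le_one) t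
  have ho1 : ∀ t, o t ≤ 1 := fun t => Set.indicator_le_self' (fun _ _ => zero_le_one) t
  set ω : ℝ → ℝ := fun t => 3 * ε1 + 2 * B0 * o t with hω
  have hωm : Measurable ω := measurable_const.add (measurable_const.mul hom)
  have hω0 : ∀ t, 0 ≤ ω t := fun t => by
    have := ho0 t
    simp only [hω]; positivity
  have hωb : ∀ t, |ω t| ≤ 3 * ε1 + 2 * B0 := fun t => by
    rw [abs_of_nonneg (hω0 t)]
    simp only [hω]
    have h1 := ho1 t
    nlinarith only [h1, hB0]
  -- the interval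
  set D : Set ℝ := Icc (T - h) (2 * T) with hD
  have hosc : ∀ s ∈ S, ∀ t ∈ Ico (s.im - h) s.im, |φ t - φ s.im| ≤ ω t := by
    intro s hs t ht
    rw [hS, mem_Zf good_zeta (by linarith)] at hs
    obtain ⟨-, -, s1, s2, -⟩ := hs
    have h1 : |t - s.im| ≤ h := by
      rw [abs_le]; constructor <;> linarith [ht.1, ht.2]
    by_cases htW : t ∈ W
    · have h2 : t ∈ E := subset_toMeasurable _ _ ⟨htW, by linarith [ht.1], by linarith [ht.2]⟩
      have h3 : o t = 1 := Set.indicator_of_mem h2 _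
      have h4 := abs_sub (φ t) (φ s.im)
      have h5 := hφB t
      have h6 := hφB s.im
      simp only [hω, h3]
      linarith
    · have h2 : t ∉ Bd := fun h3 => htW ⟨t, h3, by simp⟩
      have h3 : s.im ∉ Bd := fun h3 => htW ⟨s.im, h3, h1.trans hh1⟩
      have h4 := q1 t h2
      have h5 := q1 s.im h3
      have h6 := huc t s.im (h1.trans hhδ)
      have h7 := abs_sub_le (φ t) (g (torusPt (al M) t)) (φ s.im)
      have h8 := abs_sub_le (g (torusPt (al M) t)) (g (torusPt (al M) s.im)) (φ s.im)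
      rw [abs_sub_comm (g (torusPt (al M) s.im)) (φ s.im)] at h8
      have h9 : |φ t - g (torusPt (al M) t)| ≤ ε1 := h4
      have h10 : |φ s.im - g (torusPt (al M) s.im)| ≤ ε1 := h5
      have h11 := ho0 t
      have h12 := mul_nonneg hB0.le h11
      simp only [hω]
      linarith
  have hJD : ∀ s ∈ S, Ico (s.im - h) s.im ⊆ D := by
    intro s hs t ht
    rw [hS, mem_Zf good_zeta (by linarith)] at hs
    obtain ⟨-, -, s1, s2, -⟩ := hs
    exact ⟨by linarith [ht.1], by linarith [ht.2]⟩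
  -- comparison of the first sums
  have hg1 := gen S mS (fun s _ => mS_nonneg s) (fun s => Ico (s.im - h) s.im)
    (fun s _ => measurableSet_Ico) (A := T - h) (B := 2 * T) hJD (fun s => s.im) hφc hωm hωb hosc
  have hg2 := gen (S ×ˢ S) (fun p => mS p.1 * mS p.2)
    (fun p _ => mul_nonneg (mS_nonneg _) (mS_nonneg _))
    (fun p => Ico (p.1.im - h) p.1.im ∩ Ico (p.2.im - h) p.2.im)
    (fun p _ => measurableSet_Ico.inter measurableSet_Ico) (A := T - h) (B := 2 * T)
    (fun p hp => inter_subset_left.trans (hJD p.1 (Finset.mem_product.mp hp).1))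
    (fun p => p.1.im) hφc hωm hωb
    (fun p hp t ht => hosc p.1 (Finset.mem_product.mp hp).1 t ht.1)
  rw [← hD] at hg1 hg2
  simp_rw [← NS_ind] at hg1
  simp_rw [← NS_sq_ind] at hg2
  set N : ℝ → ℝ := NS S h with hN
  have hNm : Measurable N := NS_meas S h
  have hNn : ∀ t, 0 ≤ N t := NS_nonneg S h
  obtain ⟨MN, hMN⟩ : ∃ MN, MN = ∑ s ∈ S, mS s := ⟨_, rfl⟩
  have hMN0 : 0 ≤ MN := by rw [hMN]; exact Finset.sum_nonneg fun s _ => mS_nonneg s
  have hNM : ∀ t, N t ≤ MN := fun t => by rw [hMN]; exact NS_le S h t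
  have hMN1 : MN = N1 := by
    rw [hMN, hN1, NN_eq good_zeta (by linarith : (1 : ℝ) ≤ T)]
    push_cast
    rfl
  have hφm : Measurable φ := hφc.measurable
  have hDv : (volume D).toReal = T + h := by
    rw [hD, Real.volume_Icc, ENNReal.toReal_ofReal (by linarith)]; ring
  have dat : Dat D N o φ T a V B0 MN := by
    refine ⟨hTpos, ha, hV0, hB0, hNm, hNn, hNM, hom, ho0, ho1, hφm, hφB, ⟨_, _, hD⟩,
      by rw [hDv]; linarith, ?_⟩
    rw [hD, integral_Icc_eq_integral_Ioc, ← intervalIntegral.integral_of_le (by linarith), hV]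
    exact hvT
  have vo : ∫ t in D, o t ≤ η * (3 * T) := by
    rw [ho, setIntegral_indicator hEm, setIntegral_const, smul_eq_mul, mul_one, Measure.real]
    refine le_trans ?_ hEr
    exact ENNReal.toReal_mono (ne_top_of_le_ne_top ENNReal.ofReal_ne_top hEv)
      (measure_mono inter_subset_right)
  have hη6 : 6 * a ^ 2 * η ≤ 2 * δ := by
    rw [hη, ← mul_div_assoc, div_le_iff₀ (by linarith)]
    have h2 : 4 * a ^ 2 ≤ Q := by rw [hQ]; linarith
    have h3 : 6 * a ^ 2 * δ ^ 2 ≤ 3 / 2 * Q * δ ^ 2 := by nlinarith only [sq_nonneg δ, h2]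
    have h4 : 3 / 2 * Q * δ ^ 2 ≤ 2 * δ * Q := by
      have : 0 ≤ Q * δ := by positivity
      nlinarith only [this, hδ1]
    linarith
  have w1 : ∫ t in D, ω t * N t ≤ (3 + 8 * B0) * δ * T :=
    dat.w1 hA0 hε10.le vo (by rw [← hQ, hε1Q]) (by rw [hAη]) (by
      rw [← hQ, ← hQA]; exact le_of_eq (by ring))
  have w2 : ∫ t in D, ω t * N t ^ 2 ≤ (3 + 4 * B0) * δ * T + 4 * B0 * V * T :=
    dat.w2 hε10.le vo (by rw [← hQ, hε1Q]) hη6
  -- the mean value of `φ` over `D`
  have w3 : |(∫ t in D, φ t) - m * T| ≤ δ * T := by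
    have h1 : ∫ t in D, φ t = (∫ t in (0 : ℝ)..(2 * T), φ t) - ∫ t in (0 : ℝ)..(T - h), φ t := by
      rw [hD, integral_Icc_eq_integral_Ioc, ← intervalIntegral.integral_of_le (by linarith),
        intervalIntegral.integral_interval_sub_left (hφc.intervalIntegrable _ _)
          (hφc.intervalIntegrable _ _)]
    have h2 := abs_le.1 (hX1 (2 * T) (by linarith))
    have h3 := abs_le.1 (hX1 (T - h) (by linarith))
    have h4 : |m * h| ≤ δ / 4 * T := by
      rw [abs_mul, abs_of_pos hh0]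
      rw [div_le_iff₀ hδ0] at e4
      have h5 : |m| * h ≤ B0 * 1 := mul_le_mul hmB hh1 hh0.le hB0.le
      linarith
    have h5 := abs_le.1 h4
    rw [h1, abs_le]
    have h6 : δ / 4 * (T - h) ≤ δ / 4 * T := by
      apply mul_le_mul_of_nonneg_left _ (by positivity)
      linarith
    have h7 : m * (2 * T) - m * (T - h) = m * T + m * h := by ring
    have e7 : (∫ t in (0 : ℝ)..(2 * T), Φ (sh t)) = ∫ t in (0 : ℝ)..(2 * T), φ t := rfl
    have e8 : (∫ t in (0 : ℝ)..(T - h), Φ (sh t)) = ∫ t in (0 : ℝ)..(T - h), φ t := rfl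
    rw [e7] at h2
    rw [e8] at h3
    constructor <;> linarith [h2.1, h2.2, h3.1, h3.2, h5.1, h5.2]
  -- the first sum
  have hg1' : |(∫ t in D, φ t * N t) - h * MW riemannZeta T (2 * T) φ| ≤ (3 + 8 * B0) * δ * T := by
    have e6 : ∑ i ∈ S, mS i * ((volume (Ico (i.im - h) i.im)).toReal * φ i.im) =
        h * MW riemannZeta T (2 * T) φ := by
      unfold MW
      rw [Finset.mul_sum]
      refine Finset.sum_congr rfl fun s _ => ?_
      rw [vol_Ico hh0.le]
      unfold mS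
      ring
    rw [e6] at hg1
    exact hg1.trans w1
  have w4 : |(∫ t in D, φ t * N t) - a * m * T| ≤ (3 + 8 * B0 + 2 * a + B0 * a) * δ * T := by
    have h1 : |h * MW riemannZeta T (2 * T) φ - h * (m * N1)| ≤ 2 * a * δ * T := by
      rw [← mul_sub, abs_mul, abs_of_pos hh0]
      calc h * |MW riemannZeta T (2 * T) φ - m * N1| ≤ h * (δ * N1) :=
            mul_le_mul_of_nonneg_left hordT hh0.le
        _ ≤ h * (δ * (2 * X)) := by gcongr
        _ = 2 * δ * (h * X) := by ring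
        _ = _ := by rw [hhX]; ring
    have h2 : |h * (m * N1) - a * m * T| ≤ B0 * a * δ * T := by
      have e6 : h * (m * N1) - a * m * T = m * (h * (N1 - X)) := by
        have : h * (N1 - X) = h * N1 - a * T := by rw [mul_sub, hhX]
        rw [this]; ring
      rw [e6, abs_mul, abs_mul, abs_of_pos hh0]
      calc |m| * (h * |N1 - X|) ≤ B0 * (h * (δ * X)) := by gcongr
        _ = B0 * δ * (h * X) := by ring
        _ = _ := by rw [hhX]; ring
    have h3 := abs_sub_le (∫ t in D, φ t * N t) (h * MW riemannZeta T (2 * T) φ) (a * m * T)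
    have h4 := abs_sub_le (h * MW riemannZeta T (2 * T) φ) (h * (m * N1)) (a * m * T)
    linarith
  -- the second sum
  have w5 : |(∫ t in D, φ t * N t ^ 2) - a ^ 2 * m * T| ≤ B0 * V * T +
      2 * a * ((3 + 8 * B0 + 2 * a + B0 * a) * δ * T) + a ^ 2 * (δ * T) :=
    dat.w5 w4 w3
  -- the triangular sum
  have e9 : TR T a φ = L / (2 * Real.pi) * ∑ p ∈ S ×ˢ S, mS p.1 * mS p.2 *
      ((volume (Ico (p.1.im - h) p.1.im ∩ Ico (p.2.im - h) p.2.im)).toReal * φ p.1.im) := by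
    unfold TR
    rw [Finset.sum_product, Finset.mul_sum]
    refine Finset.sum_congr rfl fun s _ => ?_
    rw [Finset.mul_sum]
    refine Finset.sum_congr rfl fun s' _ => ?_
    rw [vol_inter hh0.le]
    have e10 : max 0 (a - |s.im - s'.im| * (L / (2 * Real.pi))) =
        L / (2 * Real.pi) * max 0 (h - |s.im - s'.im|) := by
      rw [mul_max_of_nonneg _ _ (by positivity), mul_zero]
      congr 1
      rw [mul_sub, hh]
      field_simp
    rw [← hL, e10]
    ring
  set Tr := ∑ p ∈ S ×ˢ S, mS p.1 * mS p.2 *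
      ((volume (Ico (p.1.im - h) p.1.im ∩ Ico (p.2.im - h) p.2.im)).toReal * φ p.1.im) with hTr
  have w6 : |Tr - a ^ 2 * m * T| ≤ (5 * V + 1) * B0 * T := by
    have h1 := hg2.trans w2
    rw [abs_sub_comm] at h1
    have h2 := abs_sub_le Tr (∫ t in D, φ t * N t ^ 2) (a ^ 2 * m * T)
    have h3 : (3 + 4 * B0) * δ * T + 4 * B0 * V * T + (B0 * V * T +
        2 * a * ((3 + 8 * B0 + 2 * a + B0 * a) * δ * T) + a ^ 2 * (δ * T)) =
        5 * V * B0 * T + (δ * P) * T := by rw [hP]; ring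
    have h4 : (δ * P) * T ≤ B0 * T := mul_le_mul_of_nonneg_right hδ3 hTpos.le
    have h5 : (5 * V + 1) * B0 * T = 5 * V * B0 * T + B0 * T := by ring
    rw [h5]
    linarith
  have w7 : |TR T a φ - a ^ 2 * m * X| ≤ (5 * V + 1) * B0 * X := by
    have h1 : TR T a φ - a ^ 2 * m * X = L / (2 * Real.pi) * (Tr - a ^ 2 * m * T) := by
      rw [e9, hX]; ring
    have h2 : (0 : ℝ) < L / (2 * Real.pi) := by positivity
    rw [h1, abs_mul, abs_of_pos h2]
    calc L / (2 * Real.pi) * |Tr - a ^ 2 * m * T| ≤ L / (2 * Real.pi) * ((5 * V + 1) * B0 * T) :=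
          mul_le_mul_of_nonneg_left w6 h2.le
      _ = _ := by rw [hX]; ring
  have w8 : |a ^ 2 * m * X - a ^ 2 * m * N1| ≤ B0 * X := by
    have h1 : a ^ 2 * m * X - a ^ 2 * m * N1 = -(a ^ 2 * m * (N1 - X)) := by ring
    rw [h1, abs_neg, abs_mul, abs_mul, abs_of_pos (by positivity : (0 : ℝ) < a ^ 2)]
    calc a ^ 2 * |m| * |N1 - X| ≤ a ^ 2 * B0 * (δ * X) := by gcongr
      _ = (δ * a ^ 2) * (B0 * X) := by ring
      _ ≤ 1 * (B0 * X) := by
          apply mul_le_mul_of_nonneg_right _ (by positivity)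
          linarith
      _ = _ := one_mul _
  have w9 := abs_sub_le (TR T a φ) (a ^ 2 * m * X) (a ^ 2 * m * N1)
  have w10 : (5 * V + 2) * B0 * X ≤ (5 * V + 2) * B0 * (2 * N1) := by
    apply mul_le_mul_of_nonneg_left hXN (by positivity)
  have w11 : (5 * V + 2) * B0 * (2 * N1) ≤ (10 * Cv + 4) * B0 * (1 + Real.log (1 + a)) * N1 := by
    have h1 : (5 * V + 2) * B0 * (2 * N1) = (10 * V + 4) * (B0 * N1) := by ring
    have h2 : (10 * Cv + 4) * B0 * (1 + Real.log (1 + a)) * N1 =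
        ((10 * Cv + 4) * (1 + Real.log (1 + a))) * (B0 * N1) := by ring
    rw [h1, h2, hV]
    apply mul_le_mul_of_nonneg_right _ (by positivity)
    nlinarith only [hlog]
  have w12 : (5 * V + 1) * B0 * X + B0 * X = (5 * V + 2) * B0 * X := by ring
  linarith

end Pool.Agent.R304.UQ
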