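import Pool.Agent.R304.UQ.Gen
import Pool.Agent.TH850.UV.NVh

/-! The number variance for the zeros of a dyadic block. -/

open Complex Filter Topology Set MeasureTheory

namespace Pool.Agent.R304.UQ

open H370 (Zf mult good_zeta mem_Zf)
open Pool.Agent.TH850.UV (NS mS mS_nonneg NS_nonneg NS_meas NS_le sq_int cnt cnt_eq cnt_crude nv2)

lemma NS_sub {S S' : Finset ℂ} (h : S ⊆ S') (a t : ℝ) : NS S a t ≤ NS S' a t := by
  unfold NS
  exact Finset.sum_le_sum_of_subset_of_nonneg h fun s _ _ =>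
    mul_nonneg (mS_nonneg s) (by split_ifs <;> norm_num)

theorem var_ext : ∃ C : ℝ, 0 < C ∧ ∀ a : ℝ, 0 < a → ∃ T0 : ℝ, 10 ≤ T0 ∧ ∀ T : ℝ, T0 ≤ T →
    ∫ t in (T - 2 * Real.pi * a / Real.log T)..(2 * T),
      (NS (Zf riemannZeta T (2 * T)) (2 * Real.pi * a / Real.log T) t - a) ^ 2 ≤
      C * (1 + Real.log (1 + a)) * T := by
  obtain ⟨C, T1, hC, hT1, hnv⟩ := nv2 1 le_rfl
  obtain ⟨C1, hC1, hcr⟩ := cnt_crude
  refine ⟨C + 2, by positivity, fun a ha => ?_⟩
  have hpi := Real.pi_pos
  have ev1 : ∀ᶠ T : ℝ in atTop, 1 ≤ Real.log T ∧ a * Real.log a ≤ Real.log T ∧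
      2 * Real.pi * a ≤ Real.log T :=
    (Real.tendsto_log_atTop.eventually_ge_atTop _).and
      ((Real.tendsto_log_atTop.eventually_ge_atTop _).and
      (Real.tendsto_log_atTop.eventually_ge_atTop _))
  have ev2 : ∀ᶠ T : ℝ in atTop, Real.log T ^ 1 / (1 * T + 0) <
      1 / (4 * Real.pi * a * (C1 + a) ^ 2) :=
    (Real.tendsto_pow_log_div_mul_add_atTop 1 0 1 one_ne_zero).eventually
      (gt_mem_nhds (show (0 : ℝ) < 1 / (4 * Real.pi * a * (C1 + a) ^ 2) by positivity))
  obtain ⟨T2, hT2⟩ := (ev1.and ev2).exists_forall_of_atTop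
  refine ⟨max T1 T2, hT1.trans (le_max_left _ _), fun T hT => ?_⟩
  obtain ⟨⟨e1, e2, e3⟩, e4⟩ := hT2 T ((le_max_right _ _).trans hT)
  have hTT1 : T1 ≤ T := (le_max_left _ _).trans hT
  have hT10 : 10 ≤ T := hT1.trans hTT1
  have hTpos : 0 < T := by linarith
  set L := Real.log T with hL
  set h := 2 * Real.pi * a / L with hh
  have hh0 : 0 < h := by positivity
  have hh1 : h ≤ 1 := by rw [hh, div_le_one (by linarith)]; exact e3
  obtain ⟨-, h3⟩ := hnv T hTT1 a ha (by rw [one_mul]; exact e2)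
  rw [← hL, ← hh] at h3
  set S := Zf riemannZeta T (2 * T) with hS
  have hcont := fun A B : ℝ => sq_int S h a A B
  -- pointwise bound
  have hpt : ∀ t ∈ Icc (T - h) (2 * T), (NS S h t - a) ^ 2 ≤ ((C1 + a) * L) ^ 2 := by
    intro t ht
    have h5 : NS S h t ≤ C1 * L := by
      refine (NS_sub (S' := Zf riemannZeta (T / 2) (3 * T)) ?_ h t).trans ?_
      · intro s hs
        rw [hS, mem_Zf good_zeta (by linarith)] at hs
        rw [mem_Zf good_zeta (by linarith)]
        obtain ⟨d1, d2, d3, d4, d5⟩ := hs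
        exact ⟨d1, d2, by linarith, by linarith, d5⟩
      · rw [← cnt_eq (A := T / 2) (B := 3 * T) (by linarith) (by linarith [ht.1])
          (by linarith [ht.2])]
        exact hcr T hT10 t h (by linarith [ht.1]) (by linarith [ht.2]) hh0.le (by linarith)
    have h6 := NS_nonneg S h t
    have h7 : |NS S h t - a| ≤ (C1 + a) * L := by
      rw [abs_le]
      constructor <;> nlinarith [mul_pos hC1 (lt_of_lt_of_le one_pos e1)]
    calc (NS S h t - a) ^ 2 = |NS S h t - a| ^ 2 := (sq_abs _).symm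
      _ ≤ _ := pow_le_pow_left₀ (abs_nonneg _) h7 2
  have hedge : ∀ A B : ℝ, T - h ≤ A → A ≤ B → B ≤ 2 * T → B - A ≤ h →
      ∫ t in A..B, (NS S h t - a) ^ 2 ≤ h * ((C1 + a) * L) ^ 2 := by
    intro A B hA hAB hB hBA
    calc ∫ t in A..B, (NS S h t - a) ^ 2 ≤ ∫ t in A..B, ((C1 + a) * L) ^ 2 := by
          refine intervalIntegral.integral_mono_on hAB (hcont A B)
            (continuous_const.intervalIntegrable _ _) fun t ht => hpt t ⟨by linarith [ht.1],
              by linarith [ht.2]⟩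
      _ = (B - A) * ((C1 + a) * L) ^ 2 := by rw [intervalIntegral.integral_const, smul_eq_mul]
      _ ≤ _ := mul_le_mul_of_nonneg_right hBA (sq_nonneg _)
  have g1 := hedge (T - h) T le_rfl (by linarith) (by linarith) (by linarith)
  have g3 := hedge (2 * T - h) (2 * T) (by linarith) (by linarith) le_rfl (by linarith)
  have g2 : ∫ t in T..(2 * T - h), (NS S h t - a) ^ 2 ≤
      ∫ t in T..(2 * T), ((cnt t h : ℝ) - a) ^ 2 := by
    have e5 : ∫ t in T..(2 * T - h), (NS S h t - a) ^ 2 =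
        ∫ t in T..(2 * T - h), ((cnt t h : ℝ) - a) ^ 2 := by
      refine intervalIntegral.integral_congr fun t ht => ?_
      rw [uIcc_of_le (by linarith)] at ht
      show (NS S h t - a) ^ 2 = ((cnt t h : ℝ) - a) ^ 2
      rw [cnt_eq (A := T) (B := 2 * T) (by linarith) ht.1 (by linarith [ht.2])]
    rw [e5]
    have hi := (hnv T hTT1 a ha (by rw [one_mul]; exact e2)).1
    exact intervalIntegral.integral_mono_interval le_rfl (by linarith) (by linarith)
      (Eventually.of_forall fun t => sq_nonneg _) hi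
  have hsplit : ∫ t in (T - h)..(2 * T), (NS S h t - a) ^ 2 =
      (∫ t in (T - h)..T, (NS S h t - a) ^ 2) + (∫ t in T..(2 * T - h), (NS S h t - a) ^ 2) +
        ∫ t in (2 * T - h)..(2 * T), (NS S h t - a) ^ 2 := by
    rw [intervalIntegral.integral_add_adjacent_intervals (hcont _ _) (hcont _ _),
      intervalIntegral.integral_add_adjacent_intervals (hcont _ _) (hcont _ _)]
  have h5 : 2 * (h * ((C1 + a) * L) ^ 2) ≤ T := by
    rw [pow_one, one_mul, add_zero, div_lt_div_iff₀ hTpos (by positivity), one_mul] at e4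
    have h6 : 2 * (h * ((C1 + a) * L) ^ 2) = L * (4 * Real.pi * a * (C1 + a) ^ 2) := by
      rw [hh]
      field_simp
      ring
    linarith
  have h6 := (abs_le.1 h3).2
  have hlog : 0 ≤ Real.log (1 + a) := Real.log_nonneg (by linarith)
  have h7 : T / Real.pi ^ 2 * Real.log (1 + a) ≤ T * Real.log (1 + a) := by
    apply mul_le_mul_of_nonneg_right _ hlog
    exact div_le_self hTpos.le (by nlinarith [Real.pi_gt_three])
  rw [hsplit]
  have h8 : 0 ≤ C * (T * Real.log (1 + a)) := by positivity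
  have h9 : 0 ≤ T * Real.log (1 + a) := by positivity
  have h10 : (C + 2) * (1 + Real.log (1 + a)) * T = C * T + C * (T * Real.log (1 + a)) +
      2 * T + 2 * (T * Real.log (1 + a)) := by ring
  rw [h10]
  linarith

end Pool.Agent.R304.UQ
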